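import Pool.Agent.Lib.V3K.Defs
import Pool.Agent.Lib.V3.B_CORE
import Pool.Agent.Lib.V3.B_DEC
import Pool.Agent.Lib.V3.B_HALF

/-! The core step when only a small proportion of the slabs is crossed by heavy edges. -/

namespace Pool.Agent.Lib.V3K

open MeasureTheory ProbabilityTheory Filter Topology Function Finset Pool.Agent.Lib.V3
open scoped NNReal ENNReal

namespace CK

lemma mem_JJ {n j : ℕ} : j ∈ JJ n ↔ j < n ∧ n ≤ 3 * j ∧ n ≤ 3 * (n - 1 - j) := CORE.mem_JJ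

lemma tail_pr {p : Par} (d : Dat) {s : ℝ} (hs : 0 < s) (j : ℕ) (y : V) (hV : p.Vr y ≤ p.σ ^ 2) :
    p.pr (CORE.Tail p d s j y) ≤ p.σ ^ 2 / s ^ 2 := by
  refine le_trans (p.pr_mono fun τ hτ => ?_) (HALF.low p 0 y (by rwa [sub_zero]) hs)
  have h1 : p.A d j τ y < p.g d y - s := hτ
  have h2 := p.T_le_TA (Lo j) τ 0 y
  show p.T τ 0 y ≤ p.h (y - 0) - s
  rw [sub_zero]
  unfold Par.A Par.g at h1
  linarith

lemma sum_ev1 (hM : St_MART) {p : Par} (d : Dat) (n : ℕ) (x : V) {κ t s : ℝ} (κ0 : 0 ≤ κ)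
    (hx : p.Vr x ≤ (κ * p.σ) ^ 2) (ht : 1 ≤ t) (hs : 300 * p.σ ^ 2 * √t ≤ p.c1 * s)
    (W : ℕ → Finset V) (hW0 : ∀ j, ∀ y ∈ W j, y 0 = j)
    (hWc : ∀ j, ((W j).card : ℝ) ≤ 9 * (n * t))
    (hWv : ∀ j ∈ JJ n, ∀ y ∈ W j, p.Vr y ≤ p.σ ^ 2) :
    ∑ j ∈ JJ n, p.pr (p.Ev x j (W j) (CORE.Tail p d s j)) ≤ κ * n / 100 := by
  have hσ := p.σ_pos
  have hc := p.c1_pos
  have ht0 : 0 < t := by linarith
  have hst : 0 < √t := Real.sqrt_pos.2 ht0
  have hl : 0 < 300 * p.σ ^ 2 * √t := by positivity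
  have hs0 : 0 < s := (mul_pos_iff_of_pos_left hc).1 (hl.trans_le hs)
  have hn : (0 : ℝ) ≤ n := Nat.cast_nonneg n
  have h1 := hM p x (JJ n) W (CORE.Tail p d s) fun j _ y hy =>
    ⟨hW0 j y hy, CORE.tail_meas p d s j y, CORE.tail_dep p d s j y⟩
  have h2 : ∑ j ∈ JJ n, ∑ y ∈ W j, p.pr (CORE.Tail p d s j y) ≤
      n * (9 * (n * t) * (p.σ ^ 2 / s ^ 2)) := by
    have : ∀ j ∈ JJ n, ∑ y ∈ W j, p.pr (CORE.Tail p d s j y) ≤
        9 * (n * t) * (p.σ ^ 2 / s ^ 2) := by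
      intro j hj
      have := Finset.sum_le_card_nsmul (W j) (fun y => p.pr (CORE.Tail p d s j y)) _
        fun y hy => tail_pr d hs0 j y (hWv j hj y hy)
      rw [nsmul_eq_mul] at this
      exact this.trans (mul_le_mul_of_nonneg_right (hWc j) (by positivity))
    have h3 := Finset.sum_le_card_nsmul (JJ n) _ _ this
    rw [nsmul_eq_mul] at h3
    exact h3.trans (mul_le_mul_of_nonneg_right (CORE.card_JJ_le n) (by positivity))
  have h3 : p.Vr x * ∑ j ∈ JJ n, ∑ y ∈ W j, p.pr (CORE.Tail p d s j y) ≤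
      (κ * p.σ) ^ 2 * (n * (9 * (n * t) * (p.σ ^ 2 / s ^ 2))) :=
    mul_le_mul hx h2 (sum_nonneg fun j _ => sum_nonneg fun y _ => p.pr_nonneg _)
      (by positivity)
  have h4 : (300 * p.σ ^ 2 * √t) ^ 2 ≤ (p.c1 * s) ^ 2 := pow_le_pow_left₀ hl.le hs 2
  have h5 : (300 * p.σ ^ 2 * √t) ^ 2 = 90000 * p.σ ^ 4 * t := by
    rw [mul_pow, Real.sq_sqrt ht0.le]; ring
  have h6 : (κ * p.σ) ^ 2 * (n * (9 * (n * t) * (p.σ ^ 2 / s ^ 2))) ≤
      (p.c1 * (κ * n / 100)) ^ 2 := by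
    have e : (κ * p.σ) ^ 2 * (n * (9 * (n * t) * (p.σ ^ 2 / s ^ 2))) =
        (κ * n) ^ 2 / 10000 * (90000 * p.σ ^ 4 * t) / s ^ 2 := by ring
    rw [e, div_le_iff₀ (by positivity)]
    have e2 : (p.c1 * (κ * n / 100)) ^ 2 * s ^ 2 = (κ * n) ^ 2 / 10000 * (p.c1 * s) ^ 2 := by ring
    rw [e2, ← h5]
    exact mul_le_mul_of_nonneg_left h4 (by positivity)
  have h7 := (h1.trans h3).trans h6
  have h8 := (abs_le_of_sq_le_sq' h7 (by positivity : 0 ≤ p.c1 * (κ * n / 100))).2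
  exact le_of_mul_le_mul_left h8 hc

lemma sum_ev2 (hM : St_MART) {p : Par} (n : ℕ) (x : V) {κ : ℝ} (κ0 : 0 < κ)
    (hx : p.Vr x ≤ (κ * p.σ) ^ 2) (S : ℕ → Finset V) (hS0 : ∀ j, ∀ y ∈ S j, y 0 = j)
    (h : κ * n / 20 ≤ ∑ j ∈ JJ n, p.pr (p.Ev x j (S j) fun _ => Set.univ)) :
    p.cS * n ^ 2 ≤ ∑ j ∈ JJ n, ((S j).card : ℝ) := by
  have hσ := p.σ_pos
  have hc := p.c1_pos
  have h1 := hM p x (JJ n) S (fun _ _ => Set.univ) fun j _ y hy =>
    ⟨hS0 j y hy, MeasurableSet.univ, fun _ _ _ _ => Set.mem_univ _⟩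
  simp only [p.pr_univ, sum_const, nsmul_eq_mul, mul_one] at h1
  have h2 : (p.c1 * (κ * n / 20)) ^ 2 ≤
      (p.c1 * ∑ j ∈ JJ n, p.pr (p.Ev x j (S j) fun _ => Set.univ)) ^ 2 :=
    pow_le_pow_left₀ (by positivity) (mul_le_mul_of_nonneg_left h hc.le) 2
  have h3 : p.Vr x * ∑ j ∈ JJ n, ((S j).card : ℝ) ≤
      (κ * p.σ) ^ 2 * ∑ j ∈ JJ n, ((S j).card : ℝ) :=
    mul_le_mul_of_nonneg_right hx (sum_nonneg fun j _ => Nat.cast_nonneg _)
  have h4 := (h2.trans h1).trans h3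
  unfold Par.cS
  rw [div_mul_eq_mul_div, div_le_iff₀ (by positivity)]
  refine le_of_mul_le_mul_left ?_ (pow_pos κ0 2)
  nlinarith

/-- the global exceptional event -/
def Exc (p : Par) (κ : ℝ) (n : ℕ) (x : V) : Set Cfg :=
  {τ | p.h (x - 0) + 10 * p.σ ≤ p.T τ 0 x} ∪ Bad p κ n x

lemma exc_pr {p : Par} {κ : ℝ} {n : ℕ} {x : V} (hx : p.Vr x ≤ p.σ ^ 2)
    (hB : p.pr (Bad p κ n x) ≤ 1 / 100) : p.pr (Exc p κ n x) ≤ 2 / 100 := by
  have hσ := p.σ_pos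
  have h1 := HALF.high p 0 x (s := p.σ) (t := 10 * p.σ) (by rwa [sub_zero]) (by positivity)
  have e : p.σ ^ 2 / (10 * p.σ) ^ 2 = 1 / 100 := by field_simp; norm_num
  rw [e] at h1
  have h5 := p.pr_union_le {τ | p.h (x - 0) + 10 * p.σ ≤ p.T τ 0 x} (Bad p κ n x)
  unfold Exc
  linarith

lemma bad_pr (p : Par) (d : Dat) (n : ℕ) (x : V) (lam s c : ℝ) (W S : ℕ → Finset V) (j : ℕ)
    (h : p.pr (p.Low d n j lam) ≤ c) :
    p.pr (CORE.Bad p d n x lam s W S j) ≤ c + p.pr (p.Ev x j (W j) (CORE.Tail p d s j)) +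
      p.pr (p.Ev x j (S j) fun _ => Set.univ) := by
  have h1 := p.pr_union_le (p.Low d n j lam ∪ p.Ev x j (W j) (CORE.Tail p d s j))
    (p.Ev x j (S j) fun _ => Set.univ)
  have h2 := p.pr_union_le (p.Low d n j lam) (p.Ev x j (W j) (CORE.Tail p d s j))
  unfold CORE.Bad
  linarith

lemma side {p : Par} {d : Dat} (g : p.Good d) {n : ℕ} (hn : 0 < n) {x : V} {lam k t s K : ℝ}
    (hk : k + lam < n) (hk' : k + lam ≤ (p.b - p.r) * n) (ht : 36 * (k + 2 * lam) ≤ d.ε * t)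
    {W S : ℕ → Finset V} {j : ℕ} (hj : n ≤ 3 * j)
    (hW : ∀ y : V, y 0 = j → d.eta y ≤ n * t → Cone p y → y ∈ W j)
    (hS : ∀ y ∈ W j, p.g d y * (n - 1) ≤ j * K → y ∈ S j)
    {τ : Cfg} (h : τ ∉ CORE.Bad p d n x lam s W S j) {y : V} (hy : y 0 = j) (hc : p.Cross x j τ y)
    (hh : p.hi < τ (ed y)) (hA : p.A d j τ y ≤ k + lam) :
    p.g d y - s ≤ p.A d j τ y ∧ j * K < p.g d y * (n - 1) := by
  have h1 : τ ∉ p.Low d n j lam := fun h' => h (Or.inl (Or.inl h'))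
  have hco : Cone p y := by
    have a1 := A_ge' g j τ y (by omega)
    have a2 : (n : ℝ) ≤ 3 * j := by exact_mod_cast hj
    have a3 : ((y 0 : ℤ) : ℝ) = j := by rw [hy]; simp
    have a4 := mul_le_mul_of_nonneg_left a2 (gap_pos p).le
    have a5 := mul_nonneg (gap_pos p).le (Nat.cast_nonneg (α := ℝ) j)
    unfold Cone
    rw [a3] at a1 ⊢
    linarith
  have hw := hW y hy (CORE.low_win g.ε_pos hn hk ht h1 hy hA) hco
  constructor
  · by_contra hc'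
    exact h (Or.inl (Or.inr ⟨y, hw, lt_of_not_ge hc', hc, hh⟩))
  · by_contra hc'
    exact h (Or.inr ⟨y, hS y hw (le_of_not_gt hc'), Set.mem_univ _, hc, hh⟩)

lemma map_ed (x y : V) : Sym2.map (x - ·) (ed y) = ed (x - y - e0) := by
  unfold ed
  rw [Sym2.map_mk, Sym2.eq_swap, sub_add_cancel, sub_add_eq_sub_sub]

/-- the pointwise counting inequality -/
lemma point {p : Par} {d : Dat} (g : p.Good d) {κ : ℝ} {n : ℕ} (hn : 0 < n) {x : V}
    (hx : x 0 = n) {lam t s : ℝ} (hl : 0 ≤ lam)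
    (hk : p.g d x + 10 * p.σ + p.b + lam < n)
    (hk' : p.g d x + 10 * p.σ + p.b + lam ≤ (p.b - p.r) * n)
    (ht : 36 * (p.g d x + 10 * p.σ + p.b + 2 * lam) ≤ d.ε * t) {W S : ℕ → Finset V}
    (hW : ∀ (j : ℕ) (y : V), y 0 = j → d.eta y ≤ n * t → Cone p y → y ∈ W j)
    (hS : ∀ j : ℕ, ∀ y ∈ W j,
      p.g d y * (n - 1) ≤ j * (p.g d x + 10 * p.σ + p.b + 2 * s) → y ∈ S j) (τ : Cfg)
    (hE : τ ∉ Exc p κ n x) :
    κ * n ≤ ∑ j ∈ JJ n, (CORE.Bad p d n x lam s W S j ∪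
        {τ | rf x τ ∈ CORE.Bad p d n x lam s W S (n - 1 - j)}).indicator (fun _ => (1 : ℝ)) τ := by
  classical
  have hσ := p.σ_pos
  have hb := p.b_pos
  have hT : p.T τ 0 x < p.h x + 10 * p.σ := by
    by_contra hc
    refine hE (Or.inl ?_)
    show p.h (x - 0) + 10 * p.σ ≤ p.T τ 0 x
    rw [sub_zero]
    exact le_of_not_gt hc
  obtain ⟨q, y, y', hq, he, h1, h2⟩ := DEC.geo p g x n τ hx
  have hh : κ * n ≤ (hv p n τ q).card := not_lt.1 fun h => hE (Or.inr ⟨q, hq, h⟩)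
  have key : ∀ j ∈ hv p n τ q, (1 : ℝ) ≤ (CORE.Bad p d n x lam s W S j ∪
        {τ | rf x τ ∈ CORE.Bad p d n x lam s W S (n - 1 - j)}).indicator
          (fun _ => (1 : ℝ)) τ := by
    intro j hj
    obtain ⟨hj, hhv⟩ := mem_filter.1 hj
    rw [Set.indicator_of_mem]
    by_contra hc
    have b1 : τ ∉ CORE.Bad p d n x lam s W S j := fun h => hc (Or.inl h)
    have b2 : rf x τ ∉ CORE.Bad p d n x lam s W S (n - 1 - j) := fun h => hc (Or.inr h)
    rw [mem_JJ] at hj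
    have hj' : n - 1 - j < n := by omega
    have hjj : j + (n - 1 - j) + 1 = n := by omega
    obtain ⟨y0, -, cr, -⟩ := h1 j hj.1
    obtain ⟨-, y0', -, cr'⟩ := h1 (n - 1 - j) hj'
    have c1 : p.hi < τ (ed (y j)) := hhv _ y0 (he j hj.1).1
    have c2 : p.hi < rf x τ (ed (y' (n - 1 - j))) := by
      have a1 := (he _ hj').2
      show p.hi < τ (Sym2.map (x - ·) (ed (y' (n - 1 - j))))
      rw [map_ed] at a1 ⊢
      refine hhv _ ?_ a1
      simp only [Pi.sub_apply, e0_zero, hx, y0']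
      omega
    have hsum := h2 j (n - 1 - j) hjj
    have l1 := CORE.low_ge g.ε_pos hl (fun h => b1 (Or.inl (Or.inl h))) y0
    have l2 := CORE.low_ge g.ε_pos hl (fun h => b2 (Or.inl (Or.inl h))) y0'
    have hg : p.g d x = p.h x - d.ρ x := rfl
    obtain ⟨s1, s2⟩ := side g hn hk hk' ht hj.2.1 (hW j) (hS j) b1 y0 cr c1 (by linarith)
    obtain ⟨s3, s4⟩ := side g hn hk hk' ht hj.2.2 (hW (n - 1 - j)) (hS (n - 1 - j)) b2 y0' cr'
      c2 (by linarith)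
    have hc1 : (j : ℝ) + ((n - 1 - j : ℕ) : ℝ) + 1 = n := by exact_mod_cast hjj
    have hn1 : (0 : ℝ) ≤ n - 1 := by
      have : (1 : ℝ) ≤ n := by exact_mod_cast hn
      linarith
    have hle : p.g d (y j) + p.g d (y' (n - 1 - j)) ≤ p.g d x + 10 * p.σ + p.b + 2 * s := by
      linarith
    have hm := mul_le_mul_of_nonneg_right hle hn1
    have e : (j : ℝ) * (p.g d x + 10 * p.σ + p.b + 2 * s) +
        ((n - 1 - j : ℕ) : ℝ) * (p.g d x + 10 * p.σ + p.b + 2 * s) =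
        (p.g d x + 10 * p.σ + p.b + 2 * s) * (n - 1) := by
      rw [← hc1]; ring
    linarith
  have hsum := sum_le_sum key
  rw [sum_const, nsmul_eq_mul, mul_one] at hsum
  exact (hh.trans hsum).trans (sum_le_sum_of_subset_of_nonneg (filter_subset _ _)
    fun _ _ _ => Set.indicator_nonneg (fun _ _ => zero_le_one) _)

end CK

open CK in
theorem coreK (hW : St_WIN) (hM : St_MART) {p : Par} {d : Dat} (g : p.Good d) {κ : ℝ}
    (κ0 : 0 < κ) (κ1 : κ ≤ 1) {n₀ : ℕ} (hH : Heavy p κ n₀) (hρ : 4 * (p.b - p.r) ≤ p.r)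
    (n : ℕ) (x : V) (lam t s : ℝ) (hV : VarK p κ (9 * n)) (hn : 24 ≤ n) (hn₀ : n₀ ≤ n)
    (hx : x 0 = n) (hl : 0 ≤ lam) (hk : p.g d x + 10 * p.σ + p.b + lam < n)
    (hk' : p.g d x + 10 * p.σ + p.b + lam ≤ (p.b - p.r) * n)
    (hL : ∀ j : ℕ, j < n → p.pr (p.Low d n j lam) ≤ κ / 100) (ht : 1 ≤ t)
    (hε : 36 * (p.g d x + 10 * p.σ + p.b + 2 * lam) ≤ d.ε * t)
    (hs : 300 * p.σ ^ 2 * √t ≤ p.c1 * s) :
    ∃ S : Finset V, (∀ v ∈ S, (n : ℤ) ≤ 3 * v 0 ∧ 3 * v 0 ≤ 2 * n ∧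
      p.g d v * (n - 1) ≤ v 0 * (p.g d x + 10 * p.σ + p.b + 2 * s)) ∧ p.cS * n ^ 2 ≤ S.card := by
  classical
  have hn0 : (24 : ℝ) ≤ n := by exact_mod_cast hn
  have hu : (1 : ℝ) ≤ n * t := by nlinarith
  have hg := gap_pos p
  have x0 : ((x 0 : ℤ) : ℝ) = n := by rw [hx]; simp
  have hpx : p.r * perp x ≤ 4 * (p.b - p.r) * n := by
    have a1 := g_ge' g x (by omega)
    rw [x0] at a1
    linarith [p.σ_pos, p.b_pos]
  have hcx : Cone p x := by
    unfold Cone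
    rw [x0]
    nlinarith
  have hVx : p.Vr x ≤ (κ * p.σ) ^ 2 := hV x hcx (x0 ▸ hcx.n1_le hρ (by omega))
  have hσκ := sq_le_σ p κ0.le κ1
  choose W' hW1 hW2 using fun j : ℕ => hW d j (n * t) hu
  let W : ℕ → Finset V := fun j => (W' j).filter (Cone p)
  let S : ℕ → Finset V := fun j => (W j).filter fun y =>
    p.g d y * (n - 1) ≤ j * (p.g d x + 10 * p.σ + p.b + 2 * s)
  have hW0 : ∀ j, ∀ y ∈ W j, y 0 = j := fun j y hy => ((hW1 j y).1 (mem_filter.1 hy).1).1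
  have hS0 : ∀ j, ∀ y ∈ S j, y 0 = j := fun j y hy => hW0 j y (mem_filter.1 hy).1
  have e1 := sum_ev1 hM d n x κ0.le hVx ht hs W hW0
    (fun j => le_trans (by exact_mod_cast card_filter_le _ _) (hW2 j)) fun j hj y hy => by
      have a1 := hW0 j y hy
      have a2 := (mem_filter.1 hy).2
      have a3 : ((y 0 : ℤ) : ℝ) ≤ n := by
        have := (mem_JJ.1 hj).1
        exact_mod_cast (by omega : y 0 ≤ n)
      exact (hV y a2 ((a2.n1_le hρ (by omega)).trans (by linarith))).trans hσκ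
  have hp := p.avg (insertNone (JJ n)) (fun o => o.elim (κ * n) fun _ => 1)
    (fun o => o.elim (Exc p κ n x) fun j => CORE.Bad p d n x lam s W S j ∪
      {τ | rf x τ ∈ CORE.Bad p d n x lam s W S (n - 1 - j)}) (κ * n)
    (fun o _ => by cases o <;> simp; positivity) fun τ => by
      rw [sum_insertNone]
      simp only [Option.elim_none, Option.elim_some]
      by_cases hE : τ ∈ Exc p κ n x
      · rw [Set.indicator_of_mem hE]
        exact le_add_of_nonneg_right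
          (sum_nonneg fun _ _ => Set.indicator_nonneg (fun _ _ => zero_le_one) _)
      · rw [Set.indicator_of_notMem hE, zero_add]
        exact point g (by omega) hx hl hk hk' hε
          (fun j y h0 h1 h2 => mem_filter.2 ⟨(hW1 j y).2 ⟨h0, h1⟩, h2⟩)
          (fun j y hy h => mem_filter.2 ⟨hy, h⟩) τ hE
  rw [sum_insertNone] at hp
  simp only [Option.elim_none, Option.elim_some, one_mul] at hp
  have hb : ∀ j ∈ JJ n, p.pr (CORE.Bad p d n x lam s W S j ∪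
      {τ | rf x τ ∈ CORE.Bad p d n x lam s W S (n - 1 - j)}) ≤
      p.pr (CORE.Bad p d n x lam s W S j) + p.pr (CORE.Bad p d n x lam s W S (n - 1 - j)) := by
    intro j _
    have h1 := p.pr_union_le (CORE.Bad p d n x lam s W S j)
      {τ | rf x τ ∈ CORE.Bad p d n x lam s W S (n - 1 - j)}
    have h3 := p.pr_rf x (CORE.Bad p d n x lam s W S (n - 1 - j))
    linarith
  have hq := sum_le_sum hb
  have hf : ∑ j ∈ JJ n, p.pr (CORE.Bad p d n x lam s W S (n - 1 - j)) =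
      ∑ j ∈ JJ n, p.pr (CORE.Bad p d n x lam s W S j) :=
    CORE.sum_flip n fun j => p.pr (CORE.Bad p d n x lam s W S j)
  rw [sum_add_distrib, hf] at hq
  have hr := sum_le_sum fun j (hj : j ∈ JJ n) =>
    bad_pr p d n x lam s _ W S j (hL j (mem_JJ.1 hj).1)
  rw [sum_add_distrib, sum_add_distrib, sum_const, nsmul_eq_mul] at hr
  have hJ : ((JJ n).card : ℝ) ≤ n := CORE.card_JJ_le n
  have h4 := exc_pr (hVx.trans hσκ) (hH n x hn₀ hx hpx)
  have h5 := mul_le_mul_of_nonneg_left h4 (show 0 ≤ κ * n by positivity)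
  have h6 := mul_le_mul_of_nonneg_left hJ κ0.le
  have h7 : 0 ≤ κ * n := by positivity
  have e2 := sum_ev2 hM n x κ0 hVx S hS0 (by linarith)
  refine ⟨(JJ n).biUnion S, fun v hv => ?_, ?_⟩
  · obtain ⟨j, hj, hv⟩ := mem_biUnion.1 hv
    have h0 := hS0 j v hv
    have h1 := (mem_filter.1 hv).2
    rw [mem_JJ] at hj
    refine ⟨by omega, by omega, ?_⟩
    rw [h0, Int.cast_natCast]
    exact h1
  · rw [card_biUnion, Nat.cast_sum]
    · exact e2
    · intro i _ j _ hij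
      refine disjoint_left.2 fun v h1 h2 => hij ?_
      have := (hS0 i v h1).symm.trans (hS0 j v h2)
      exact_mod_cast this

end Pool.Agent.Lib.V3K
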