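import Pool.Agent.Lib.V3.Prob

/-! Working definitions for the version with nearly constant weights, localised to a cone. -/

namespace Pool.Agent.Lib.V3K

open MeasureTheory ProbabilityTheory Filter Topology Function Finset SimpleGraph
  Pool.Agent.Lib.MP_eba68f_pr Pool.Agent.Lib.V3
open scoped NNReal ENNReal

/-- transversal part of the norm -/
noncomputable def perp (v : V) : ℝ := |(v 1 : ℝ)| + |(v 2 : ℝ)|

/-- the middle slabs -/
def JJ (n : ℕ) : Finset ℕ := (range n).filter fun j => n ≤ 3 * j ∧ n ≤ 3 * (n - 1 - j)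

open Classical in
/-- middle slabs all of whose crossing edges on the walk are heavy -/
noncomputable def hv (p : Par) (n : ℕ) (τ : Cfg) {x : V} (q : G.Walk 0 x) : Finset ℕ :=
  (JJ n).filter fun j => ∀ y : V, y 0 = j → ed y ∈ q.edges → p.hi < τ (ed y)

def Bad (p : Par) (κ : ℝ) (n : ℕ) (x : V) : Set Cfg :=
  {τ | ∃ q : G.Walk 0 x, (q.length : ℝ) ≤ p.b / p.r * n1 x ∧ ((hv p n τ q).card : ℝ) < κ * n}

def Heavy (p : Par) (κ : ℝ) (n₀ : ℕ) : Prop :=
  ∀ (n : ℕ) (x : V), n₀ ≤ n → x 0 = n → p.r * perp x ≤ 4 * (p.b - p.r) * n →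
    p.pr (Bad p κ n x) ≤ 1 / 100

/-- the narrow cone round the axis -/
def Cone (p : Par) (v : V) : Prop := p.r * perp v ≤ 30 * (p.b - p.r) * v 0

/-- variance bound on the cone up to distance `X` -/
def VarK (p : Par) (κ X : ℝ) : Prop := ∀ v, Cone p v → n1 v ≤ X → p.Vr v ≤ (κ * p.σ) ^ 2

lemma perp_nonneg (v : V) : 0 ≤ perp v := by unfold perp; positivity

lemma n1_eq {v : V} (h : 0 ≤ v 0) : n1 v = v 0 + perp v := by
  have : (0 : ℝ) ≤ v 0 := by exact_mod_cast h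
  unfold n1 perp
  rw [abs_of_nonneg this]; ring

lemma gap_pos (p : Par) : 0 < p.b - p.r := by linarith [p.r_le_lo, p.lo_lt_hi, p.hi_le]

lemma card_JJ {n : ℕ} (hn : 24 ≤ n) : (n : ℝ) / 4 ≤ (JJ n).card := by
  have h : Finset.Ico ((n + 2) / 3) (n - (n + 2) / 3) ⊆ JJ n := fun j hj => by
    simp only [JJ, mem_filter, mem_range, mem_Ico] at hj ⊢
    omega
  have h1 := card_le_card h
  rw [Nat.card_Ico] at h1
  have h2 : n ≤ 4 * (JJ n).card := by omega
  have h3 : (n : ℝ) ≤ 4 * (JJ n).card := by exact_mod_cast h2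
  linarith

lemma up_step {a b : V} (h : G.Adj a b) (h1 : a 0 < b 0) : b = a + e0 := by
  rw [adj_iff] at h
  refine vext ?_ ?_ ?_ <;> simp only [Pi.add_apply, e0_zero, e0_one, e0_two] <;> omega

/-- a walk crosses every slab between the heights of its end points -/
lemma slab_edge {u v : V} (q : G.Walk u v) {j : ℤ} (h1 : u 0 ≤ j) (h2 : j < v 0) :
    ∃ y : V, y 0 = j ∧ ed y ∈ q.edges := by
  induction q with
  | nil => omega
  | @cons a b c h q ih =>
    by_cases hb : b 0 ≤ j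
    · obtain ⟨y, hy, he⟩ := ih hb h2
      exact ⟨y, hy, by simp [he]⟩
    · clear ih
      have hab : b = a + e0 := up_step h (by omega)
      have h3 : b 0 = a 0 + 1 := by rw [hab]; rfl
      exact ⟨a, by omega, by simp [ed, hab]⟩

variable {p : Par} {d : Dat}

lemma VarK.mono {κ X Y : ℝ} (h : VarK p κ X) (hY : Y ≤ X) : VarK p κ Y :=
  fun v h1 h2 => h v h1 (h2.trans hY)

lemma sq_le_σ (p : Par) {κ : ℝ} (κ0 : 0 ≤ κ) (κ1 : κ ≤ 1) : (κ * p.σ) ^ 2 ≤ p.σ ^ 2 :=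
  pow_le_pow_left₀ (mul_nonneg κ0 p.σ_pos.le) (mul_le_of_le_one_left p.σ_pos.le κ1) 2

lemma Cone.n1_le {v : V} (h : Cone p v) (hρ : 4 * (p.b - p.r) ≤ p.r) (hv : 0 ≤ v 0) :
    n1 v ≤ 9 * v 0 := by
  have h0 : (0 : ℝ) ≤ v 0 := by exact_mod_cast hv
  have hr := p.r_pos
  rw [n1_eq hv]
  have h1 : p.r * perp v ≤ p.r * (8 * v 0) := by
    unfold Cone at h
    nlinarith [mul_le_mul_of_nonneg_right hρ h0]
  linarith [le_of_mul_le_mul_left h1 hr]

/-- sharper deterministic lower bounds -/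
lemma T_sub_ρ' (g : p.Good d) (τ : Cfg) (u v : V) (hv : 0 ≤ (v - u) 0) :
    p.r / 2 * perp (v - u) - (p.b - p.r) * (v - u) 0 ≤ p.T τ u v - d.ρ (v - u) := by
  have h1 := g.ρ_le (v - u) hv
  have h2 := p.T_ge τ u v
  rw [n1_eq hv] at h2
  unfold perp at h2 ⊢
  linarith

lemma g_ge' (g : p.Good d) (v : V) (hv : 0 ≤ v 0) :
    p.r / 2 * perp v - (p.b - p.r) * v 0 ≤ p.g d v := by
  have h1 := g.ρ_le v hv
  have h2 := p.h_ge v
  rw [n1_eq hv] at h2
  unfold perp at h2 ⊢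
  unfold Par.g
  linarith

lemma A_ge' (g : p.Good d) (j : ℤ) (τ : Cfg) (y : V) (hv : 0 ≤ y 0) :
    p.r / 2 * perp y - (p.b - p.r) * y 0 ≤ p.A d j τ y := by
  have h1 := g.ρ_le y hv
  have h2 := p.TA_ge (Lo j) τ 0 y
  rw [sub_zero, n1_eq hv] at h2
  unfold perp at h2 ⊢
  unfold Par.A
  linarith

end Pool.Agent.Lib.V3K
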