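import Pool.Agent.Lib.V3K.Near

namespace Pool.Agent.Lib.V3K.DirectionThreeDim

open MeasureTheory ProbabilityTheory Filter Pool.Agent.Lib.MP_eba68f_pr
open scoped NNReal ENNReal

theorem result (q : ℝ≥0∞) (hq : q < 1) : ∃ η : ℝ≥0, 0 < η ∧ ∀ r b : ℝ≥0, 0 < r →
    b ≤ r * (1 + η) → ∀ (F : Measure ℝ≥0) [IsProbabilityMeasure F], F (Set.Icc r b) = 1 →
    63 / 64 ≤ F {r} → F {r} < q →
    (∃ C : ℝ≥0, ∀ v : Fin 3 → ℤ, v 0 ≤ v 1 + v 2 → v 1 ≤ v 0 + v 2 → v 2 ≤ v 0 + v 1 →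
      evariance (fun τ => passage τ 0 v)
        (Measure.infinitePi fun _ : (lattice 3).edgeSet => F) ≤ C) ∧
    ∃ c : ℝ, 0 < c ∧ ∀ᶠ N : ℕ in atTop, ∃ v : Fin 3 → ℤ,
      (r : ℝ) * (|(v 1 : ℝ)| + |(v 2 : ℝ)|) ≤ 30 * ((b : ℝ) - (r : ℝ)) * (v 0 : ℝ) ∧ v 0 ≤ N ∧
      ENNReal.ofReal (c * √(Real.log N)) ≤ evariance (fun τ => passage τ 0 v)
        (Measure.infinitePi fun _ : (lattice 3).edgeSet => F) :=
  Pool.Agent.Lib.V3K.direction q hq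

end Pool.Agent.Lib.V3K.DirectionThreeDim
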