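import Pool.Agent.Lib.MP_eba68f_edge.Final
import Pool.Agent.Lib.V3.Base

/-! Bounded variance in dimension three on the cone spanned by the three plane diagonals, for the
two-valued law `FF`. -/

namespace Pool.Agent.Lib.V3K.EMB

open MeasureTheory ProbabilityTheory Filter Function SimpleGraph
open Pool.Agent.Lib.MP_eba68f_pr Pool.Agent.Lib.MP_eba68f_edge
open scoped NNReal ENNReal

abbrev W3 : Type := Fin 3 → ℤ

lemma adj3 {u v : W3} : (lattice 3).Adj u v ↔ |u 0 - v 0| + |u 1 - v 1| + |u 2 - v 2| = 1 := by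
  show ∑ i, |u i - v i| = 1 ↔ _
  rw [Fin.sum_univ_three]

lemma adj2 {u v : V} : (lattice 2).Adj u v ↔ |u 0 - v 0| + |u 1 - v 1| = 1 := by
  show ∑ i, |u i - v i| = 1 ↔ _
  rw [Fin.sum_univ_two]

/-- the plane embedded along the axes `i` and `j` with origin `c` -/
def emb (c : W3) (i j : Fin 3) (h : i ≠ j) : lattice 2 →g lattice 3 where
  toFun z := c + Pi.single i (z 0) + Pi.single j (z 1)
  map_rel' := fun {u v} huv => by
    rw [adj3]; rw [adj2] at huv
    fin_cases i <;> fin_cases j <;> first | exact absurd rfl h | simpa [add_comm] using huv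

lemma emb_apply (c : W3) (i j : Fin 3) (h : i ≠ j) (z : V) :
    emb c i j h z = c + Pi.single i (z 0) + Pi.single j (z 1) := rfl

lemma emb_inj (c : W3) (i j : Fin 3) (h : i ≠ j) : Injective (emb c i j h) := fun u v huv => by
  have h1 := congrFun huv i
  have h2 := congrFun huv j
  simp [emb_apply, h, h.symm] at h1 h2
  exact vext h1 h2

def pull (f : lattice 2 →g lattice 3) (ω : Sym2 W3 → Bool) : Om := fun e => ω (Sym2.map f e)

lemma meas_pull (f : lattice 2 →g lattice 3) : Measurable (pull f) :=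
  measurable_pi_lambda _ fun _ => measurable_pi_apply _

lemma map_pull {f : lattice 2 →g lattice 3} (hf : Injective f) :
    (PP (Sym2 W3)).map (pull f) = PP (Sym2 V) :=
  Measure.map_infinitePi_infinitePi_of_inj (P := fun _ : Sym2 W3 => bern)
    (f := fun e : Sym2 V => Sym2.map f e) (Sym2.map.injective hf)

noncomputable def Ph3 (ω : Sym2 W3 → Bool) : (lattice 3).edgeSet → ℝ≥0 := fun e => wN (ω e)

lemma meas_Ph3 : Measurable Ph3 :=
  measurable_pi_lambda _ fun _ => (Measurable.of_discrete (f := wN)).comp (measurable_pi_apply _)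

lemma map_Ph3 :
    (PP (Sym2 W3)).map Ph3 = Measure.infinitePi fun _ : (lattice 3).edgeSet => FF := by
  have h1 := Measure.map_infinitePi_infinitePi_of_inj (P := fun _ : Sym2 W3 => bern)
    (f := fun e : (lattice 3).edgeSet => (e : Sym2 W3)) Subtype.val_injective
  have h2 := Measure.infinitePi_map_pi (fun _ : (lattice 3).edgeSet => bern)
    (f := fun _ => wN) fun _ => Measurable.of_discrete
  rw [FF, ← h2, ← h1, Measure.map_map]
  · rfl
  · exact measurable_pi_lambda _ fun e =>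
      (Measurable.of_discrete (f := wN)).comp (measurable_pi_apply _)
  · fun_prop

lemma meas_passage3 (u v : W3) :
    Measurable fun τ : (lattice 3).edgeSet → ℝ≥0 => passage τ u v := by
  refine Measurable.iInf fun p => ?_
  generalize p.darts = l
  induction l with
  | nil => simp
  | cons a l ih =>
    simp only [List.map_cons, List.sum_cons]
    exact (measurable_coe_nnreal_real.comp
      (measurable_pi_apply (⟨a.edge, a.edge_mem⟩ : (lattice 3).edgeSet))).add ih

noncomputable def L3 (ω : Sym2 W3 → Bool) (l : List (Sym2 W3)) : ℝ :=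
  (l.map fun e => wt (ω e)).sum

lemma passage_Ph3 (ω : Sym2 W3 → Bool) (u v : W3) :
    passage (Ph3 ω) u v = ⨅ p : (lattice 3).Walk u v, L3 ω p.edges := by
  unfold passage L3
  congr 1
  ext p
  rw [Walk.edges, List.map_map]
  congr 1
  refine List.map_congr_left fun d _ => ?_
  simp [Ph3, coe_wN]

/-- sum of the coordinates -/
noncomputable def sm (z : W3) : ℝ := (z 0 : ℝ) + z 1 + z 2

lemma L3_ge (ω : Sym2 W3 → Bool) {u v : W3} (p : (lattice 3).Walk u v) :
    sm v - sm u ≤ L3 ω p.edges ∧ 0 ≤ L3 ω p.edges ∧ L3 ω p.edges ≤ 2 * p.length := by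
  induction p with
  | nil => simp [L3]
  | @cons a b c h p ih =>
    have h1 := adj3.1 h
    have h2 : b 0 + b 1 + b 2 - (a 0 + a 1 + a 2) ≤ 1 := by
      have := neg_abs_le (a 0 - b 0)
      have := neg_abs_le (a 1 - b 1)
      have := neg_abs_le (a 2 - b 2)
      omega
    have h3 : sm b - sm a ≤ 1 := by unfold sm; exact_mod_cast h2
    have h4 := wt_ge (ω s(a, b))
    have h6 := wt_le (ω s(a, b))
    have h5 : L3 ω (Walk.cons h p).edges = wt (ω s(a, b)) + L3 ω p.edges := by simp [L3]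
    rw [h5, Walk.length_cons]
    push_cast
    refine ⟨?_, ?_, ?_⟩ <;> linarith [ih.1, ih.2.1, ih.2.2, bb_le]

lemma L3_map (ω : Sym2 W3 → Bool) (f : lattice 2 →g lattice 3) {u v : V}
    (p : (lattice 2).Walk u v) : L3 ω (p.map f).edges = LW (pull f ω) p.edges := by
  simp [L3, LW, Walk.edges_map, List.map_map, pull, comp_def]

/-- excess of the passage time over the gain of the coordinate sum -/
noncomputable def ex (u v : W3) (ω : Sym2 W3 → Bool) : ℝ := passage (Ph3 ω) u v - (sm v - sm u)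

lemma pas_le (ω : Sym2 W3 → Bool) {u v : W3} (p : (lattice 3).Walk u v) :
    passage (Ph3 ω) u v ≤ L3 ω p.edges := by
  rw [passage_Ph3]
  exact ciInf_le ⟨0, by rintro _ ⟨p, rfl⟩; exact (L3_ge ω p).2.1⟩ p

lemma ex_nonneg (u v : W3) (ω : Sym2 W3 → Bool) : 0 ≤ ex u v ω := by
  unfold ex
  rw [passage_Ph3, sub_nonneg]
  exact le_ciInf fun p => (L3_ge ω p).1

lemma nice_ex (u v : W3) : Nice (ex u v) := by
  obtain ⟨p⟩ : Nonempty ((lattice 3).Walk u v) := inferInstance
  refine ⟨((meas_passage3 u v).comp meas_Ph3).sub measurable_const,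
    2 * p.length - (sm v - sm u), fun ω => ?_⟩
  rw [abs_of_nonneg (ex_nonneg u v ω)]
  unfold ex
  linarith [pas_le ω p, (L3_ge ω p).2.2]

lemma ex_tri (u v w : W3) (ω : Sym2 W3 → Bool) : ex u w ω ≤ ex u v ω + ex v w ω := by
  have h : passage (Ph3 ω) u w ≤ passage (Ph3 ω) u v + passage (Ph3 ω) v w := by
    rw [passage_Ph3 ω u v, passage_Ph3 ω v w]
    refine le_ciInf_add_ciInf fun p q => (pas_le ω (p.append q)).trans_eq ?_
    simp [L3]
  unfold ex
  linarith

def Bd (C : ℝ) (u v : W3) : Prop := ∫ ω, ex u v ω ^ 2 ∂PP (Sym2 W3) ≤ C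

lemma Bd.tri {C D : ℝ} {u v w : W3} (h1 : Bd C u v) (h2 : Bd D v w) : Bd (2 * C + 2 * D) u w := by
  have h3 := int_le (nice_ex u w).sq (((nice_ex u v).sq.cmul 2).add ((nice_ex v w).sq.cmul 2))
    fun ω => by
      have h3 := pow_le_pow_left₀ (ex_nonneg u w ω) (ex_tri u v w ω) 2
      nlinarith [sq_nonneg (ex u v ω - ex v w ω)]
  rw [integral_add ((nice_ex u v).sq.cmul 2).integrable ((nice_ex v w).sq.cmul 2).integrable,
    integral_const_mul, integral_const_mul] at h3
  unfold Bd at h1 h2 ⊢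
  linarith

lemma sm_emb (c : W3) (i j : Fin 3) (h : i ≠ j) (z : V) : sm (emb c i j h z) = sm c + lvl z := by
  fin_cases i <;> fin_cases j <;>
    first | exact absurd rfl h | (simp [sm, lvl, emb_apply]; ring)

lemma bd_emb {C : ℝ} (hC : ∀ n : ℕ, ∫ ω, exc (zz n) ω ^ 2 ∂PP _ ≤ C) (c : W3) (i j : Fin 3)
    (h : i ≠ j) (k : ℕ) : Bd C (emb c i j h 0) (emb c i j h (zz k)) := by
  have h1 := hC k
  rw [← map_pull (emb_inj c i j h), integral_map (meas_pull _).aemeasurable
    (nice_exc (zz k)).sq.1.aestronglyMeasurable] at h1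
  have hn : Nice fun ω => exc (zz k) (pull (emb c i j h) ω) := by
    obtain ⟨h1, D, h2⟩ := nice_exc (zz k)
    exact ⟨h1.comp (meas_pull _), D, fun ω => h2 _⟩
  refine (int_le (nice_ex _ _).sq hn.sq fun ω => pow_le_pow_left₀ (ex_nonneg _ _ ω) ?_ 2).trans h1
  have h2 : passage (Ph3 ω) (emb c i j h 0) (emb c i j h (zz k)) ≤
      TT (pull (emb c i j h) ω) 0 (zz k) :=
    le_ciInf fun p => (pas_le ω (p.map _)).trans_eq (L3_map ω _ p)
  have h3 : lvl 0 = 0 := by simp [lvl]
  unfold ex exc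
  rw [sm_emb, sm_emb, h3]
  linarith

lemma bd_diag {C : ℝ} (hC : ∀ n : ℕ, ∫ ω, exc (zz n) ω ^ 2 ∂PP _ ≤ C) (c : W3) (i j : Fin 3)
    (h : i ≠ j) (k : ℕ) :
    Bd (2 * C + 2 * C) c (c + Pi.single i (k : ℤ) + Pi.single j (k : ℤ)) := by
  have h1 := bd_emb hC c i j h k
  have h2 := bd_emb hC (emb c i j h (zz k)) j i h.symm k
  have e0 : ∀ (c : W3) (i j : Fin 3) (h : i ≠ j), emb c i j h 0 = c := fun c i j h => by
    simp [emb_apply]
  have e1 : zz k 0 + zz k 1 = k := by simp [zz]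
  have e2 : emb (emb c i j h (zz k)) j i h.symm (zz k) =
      c + Pi.single i (k : ℤ) + Pi.single j (k : ℤ) := by
    rw [emb_apply, emb_apply, ← e1, Pi.single_add, Pi.single_add]
    abel
  rw [e0] at h1 h2
  exact e2 ▸ h1.tri h2

lemma bd_step (c : W3) : Bd 1 c (c + Pi.single 0 1) := by
  have h : (lattice 3).Adj c (c + Pi.single 0 1) := by simp [adj3]
  have h1 := int_le (nice_ex c (c + Pi.single 0 1)).sq (Nice.const 1) fun ω => by
    refine pow_le_one₀ (ex_nonneg _ _ ω) ?_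
    have h2 := (pas_le ω (Walk.cons h Walk.nil)).trans (L3_ge ω _).2.2
    have h3 : sm (c + Pi.single 0 1) = sm c + 1 := by simp [sm]; ring
    unfold ex
    simp only [Walk.length_cons, Walk.length_nil, zero_add, Nat.cast_one] at h2
    linarith
  simpa [Bd] using h1

lemma bd_cone : ∃ C : ℝ, ∀ v : W3, v 0 ≤ v 1 + v 2 → v 1 ≤ v 0 + v 2 → v 2 ≤ v 0 + v 1 →
    Bd C 0 v := by
  obtain ⟨C, hC⟩ := exc_bdd
  have C0 : 0 ≤ C := le_trans (integral_nonneg fun ω => sq_nonneg _) (hC 0)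
  have key : ∀ a b c : ℕ, Bd (40 * C) 0 ![(a : ℤ) + b, a + c, b + c] := fun a b c => by
    have h1 := bd_diag hC 0 0 1 (by decide) a
    have h2 := (bd_diag hC _ 0 2 (by decide) b).tri (bd_diag hC _ 1 2 (by decide) c) |> h1.tri
    have e : (0 : W3) + Pi.single 0 (a : ℤ) + Pi.single 1 (a : ℤ) + Pi.single 0 (b : ℤ) +
        Pi.single 2 (b : ℤ) + Pi.single 1 (c : ℤ) + Pi.single 2 (c : ℤ) =
        ![(a : ℤ) + b, a + c, b + c] := by
      ext i; fin_cases i <;> simp
    rw [e] at h2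
    exact h2.trans_eq (by ring)
  refine ⟨80 * C + 2, fun v h0 h1 h2 => ?_⟩
  have h3 := key ((v 0 + v 1 - v 2) / 2).toNat ((v 0 + v 2 - v 1) / 2).toNat
    ((v 1 + v 2 - v 0 + 1) / 2).toNat
  rcases Int.emod_two_eq_zero_or_one (v 0 + v 1 + v 2) with h | h
  · have e : ![(((v 0 + v 1 - v 2) / 2).toNat : ℤ) + ((v 0 + v 2 - v 1) / 2).toNat,
        ((v 0 + v 1 - v 2) / 2).toNat + ((v 1 + v 2 - v 0 + 1) / 2).toNat,
        ((v 0 + v 2 - v 1) / 2).toNat + ((v 1 + v 2 - v 0 + 1) / 2).toNat] = v := by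
      refine V3.vext ?_ ?_ ?_ <;> simp only [Matrix.cons_val] <;> omega
    rw [e] at h3
    exact h3.trans (by linarith)
  · have h4 := h3.tri (bd_step _)
    have e : ![(((v 0 + v 1 - v 2) / 2).toNat : ℤ) + ((v 0 + v 2 - v 1) / 2).toNat,
        ((v 0 + v 1 - v 2) / 2).toNat + ((v 1 + v 2 - v 0 + 1) / 2).toNat,
        ((v 0 + v 2 - v 1) / 2).toNat + ((v 1 + v 2 - v 0 + 1) / 2).toNat] + Pi.single 0 1 = v := by
      refine V3.vext ?_ ?_ ?_ <;>
        simp only [Pi.add_apply, Matrix.cons_val, Pi.single_eq_same,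
          Pi.single_eq_of_ne (show (1 : Fin 3) ≠ 0 by decide),
          Pi.single_eq_of_ne (show (2 : Fin 3) ≠ 0 by decide)] <;> omega
    rw [e] at h4
    exact h4.trans_eq (by ring)

theorem cone_var : ∃ C : ℝ≥0, ∀ v : Fin 3 → ℤ, v 0 ≤ v 1 + v 2 → v 1 ≤ v 0 + v 2 →
    v 2 ≤ v 0 + v 1 → evariance (fun τ => passage τ 0 v)
      (Measure.infinitePi fun _ : (lattice 3).edgeSet => FF) ≤ C := by
  obtain ⟨C, hC⟩ := bd_cone
  refine ⟨C.toNNReal, fun v h0 h1 h2 => ?_⟩
  have hm := meas_passage3 0 v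
  have hX := nice_ex 0 v
  have hL : MemLp (fun τ => passage τ 0 v) 2 ((PP (Sym2 W3)).map Ph3) := by
    rw [memLp_map_measure_iff hm.aestronglyMeasurable meas_Ph3.aemeasurable]
    obtain ⟨-, D, hD⟩ := hX.add (Nice.const (sm v - sm 0))
    refine MemLp.of_bound (hm.comp meas_Ph3).aestronglyMeasurable D (ae_of_all _ fun ω => ?_)
    simpa [ex] using hD ω
  have : IsProbabilityMeasure ((PP (Sym2 W3)).map Ph3) :=
    Measure.isProbabilityMeasure_map meas_Ph3.aemeasurable
  rw [← map_Ph3, ← ofReal_variance hL, variance_map hm.aemeasurable meas_Ph3.aemeasurable]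
  refine ENNReal.ofReal_le_ofReal ?_
  have h3 : Var[(fun τ => passage τ 0 v) ∘ Ph3; PP (Sym2 W3)] = Var[ex 0 v; PP (Sym2 W3)] :=
    (variance_sub_const (hm.comp meas_Ph3).aestronglyMeasurable _).symm
  rw [h3]
  exact (variance_le_expectation_sq hX.1.aestronglyMeasurable).trans (hC v h0 h1 h2)

end Pool.Agent.Lib.V3K.EMB
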