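import Pool.Agent.Lib.V3K.Heavy
import Pool.Agent.Lib.V3Q.B_FINAL2

/-! The last contradiction from one site with a gain over the lower level. -/

namespace Pool.Agent.Lib.V3K

open MeasureTheory ProbabilityTheory Filter Topology Finset SimpleGraph Pool.Agent.Lib.V3
open scoped NNReal ENNReal

/-- a site where the functional exceeds the cost of a fast route -/
theorem gainK {p : Par} {d : Dat} (g : p.Good d) {κ : ℝ} {n₀ : ℕ} (κ0 : 0 < κ)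
    (hH : Heavy p κ n₀) (hρ : 4 * (p.b - p.r) ≤ p.r) (hlo : 16 * (p.lo - p.r) ≤ (p.hi - p.r) * κ) :
    ∃ (z : V) (δ : ℝ), 0 < δ ∧ 0 ≤ z 0 ∧ p.lo * n1 z + δ ≤ d.ρ z := by
  have hg := gap_pos p
  have hr := p.r_pos
  have hD : 0 < (p.hi - p.r) * κ := mul_pos (by linarith [p.r_le_lo, p.lo_lt_hi]) κ0
  obtain ⟨z, hz, hzg⟩ := g.G3 (min (p.b - p.r) ((p.hi - p.r) * κ / 8))
    (lt_min hg (by linarith)) (n₀ + 1)
  obtain ⟨n, hn⟩ : ∃ n : ℕ, z 0 = n := ⟨(z 0).toNat, by omega⟩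
  have z0 : 0 ≤ z 0 := by omega
  have e : ((z 0 : ℤ) : ℝ) = n := by rw [hn]; simp
  have n1' : (1 : ℝ) ≤ n := by exact_mod_cast (by omega : 1 ≤ n)
  have a1 := mul_le_mul_of_nonneg_right (min_le_left (p.b - p.r) ((p.hi - p.r) * κ / 8))
    (Nat.cast_nonneg (α := ℝ) n)
  have a2 := mul_le_mul_of_nonneg_right (min_le_right (p.b - p.r) ((p.hi - p.r) * κ / 8))
    (Nat.cast_nonneg (α := ℝ) n)
  have a3 := g_ge' g z z0
  rw [e] at hzg a3
  have a4 : p.r * perp z ≤ 4 * (p.b - p.r) * n := by linarith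
  have a5 := h_heavy κ0.le hH n z (by omega) hn a4
  have a6 : n1 z ≤ 2 * n := by
    have : p.r * perp z ≤ p.r * n := a4.trans (mul_le_mul_of_nonneg_right hρ (by linarith))
    rw [n1_eq z0, e]
    linarith [le_of_mul_le_mul_left this hr]
  have a7 := mul_le_mul_of_nonneg_left a6 (sub_nonneg.2 p.r_le_lo)
  have a8 := mul_le_mul_of_nonneg_right hlo (Nat.cast_nonneg (α := ℝ) n)
  have a9 := mul_le_mul_of_nonneg_left n1' hD.le
  refine ⟨z, (p.hi - p.r) * κ / 4, by linarith, z0, ?_⟩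
  unfold Par.g at hzg
  linarith

open FINAL2 in
theorem finalK (hF : St_FAST) (hS : St_SEP2) {p : Par} {d : Dat} (g : p.Good d) {a₁ a : ℝ} (M : ℝ)
    {z : V} {δ : ℝ} (hδ : 0 < δ) (hz : 0 ≤ z 0) (hgain : p.lo * n1 z + δ ≤ d.ρ z) (c1 : 0 ≤ a₁)
    (c0 : 0 ≤ a) : ∃ c : ℝ, 0 ≤ c ∧ ∀ (σ : ℝ) (h : 1 ≤ σ) (n : ℕ),
      (p.sig σ h).Half2 d a₁ ((2 + 2 / p.r * (2 * p.b + 1)) * n) → (p.sig σ h).LowB2 d a n →
      (p.sig σ h).PP d n (M * σ ^ 2 / √n) → (n : ℝ) ≤ Real.exp (c * σ ^ 4) := by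
  obtain ⟨K₁, hK₁⟩ : ∃ K₁ : ℕ, n1 z = K₁ := ⟨_, n1_nat z⟩
  have hb := p.b_pos
  have hr := p.r_pos
  have hc := p.c1_pos
  have L0 : 0 ≤ -Real.log p.q := neg_nonneg.2 (Real.log_nonpos p.q_pos'.le p.q_le_one)
  set L := -Real.log p.q with hLq
  have A0 : 0 ≤ (a₁ + a) * (2 * M ^ 2 + 1) + p.b := by positivity
  set A := (a₁ + a) * (2 * M ^ 2 + 1) + p.b with hA
  have B0 : 0 ≤ (A / δ + 1) * K₁ := by positivity
  set B := (A / δ + 1) * K₁ with hB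
  refine ⟨2 * M ^ 2 + (B * (4 + L) + 1 + 10800 / p.c1 ^ 2),
    by positivity, fun σ h n hH hLow ⟨_, S, hSv, hcard⟩ => ?_⟩
  by_contra hn
  rw [not_le] at hn
  set c := 2 * M ^ 2 + (B * (4 + L) + 1 + 10800 / p.c1 ^ 2) with hcc
  have s4 : 1 ≤ σ ^ 4 := one_le_pow₀ h
  have s1 : σ ≤ σ ^ 4 := le_self_pow₀ h (by norm_num)
  have c2 : 0 < 10800 / p.c1 ^ 2 := by positivity
  have c3 : B ≤ B * (4 + L) := le_mul_of_one_le_right B0 (by linarith)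
  have hcn : c * σ ^ 4 + 1 ≤ n := (Real.add_one_le_exp _).trans hn.le
  have M0 : 0 ≤ 2 * M ^ 2 := by positivity
  have kn : 2 * M ^ 2 * σ ^ 4 ≤ n := by
    have := mul_le_mul_of_nonneg_right (show 2 * M ^ 2 ≤ c by linarith) (zero_le_one.trans s4)
    linarith
  have k0 : 0 ≤ 2 * M ^ 2 * σ ^ 4 := by positivity
  have n1' : (1 : ℝ) ≤ n := by
    have : 0 ≤ c * σ ^ 4 := mul_nonneg (by linarith) (by linarith)
    linarith
  have t0 : 0 ≤ A * σ ^ 4 / δ := by positivity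
  have t1 := Nat.le_ceil (A * σ ^ 4 / δ)
  have t2 := (Nat.ceil_lt_add_one t0).le
  set t := ⌈A * σ ^ 4 / δ⌉₊ with ht
  have hK : ((t * K₁ : ℕ) : ℝ) ≤ B * σ ^ 4 := by
    have h1 : (t : ℝ) ≤ (A / δ + 1) * σ ^ 4 := by
      rw [add_mul, div_mul_eq_mul_div]; linarith
    have h2 := mul_le_mul_of_nonneg_right h1 (Nat.cast_nonneg (α := ℝ) K₁)
    push_cast
    rw [hB]
    linarith
  have hzt : n1 (t • z) = ((t * K₁ : ℕ) : ℝ) := by rw [n1_nsmul, hK₁]; push_cast; rfl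
  have hgk : ∀ v ∈ S, p.g d v ≤ 2 * M ^ 2 * σ ^ 4 := fun v hv => by
    refine (hSv v hv).2.2.trans ?_
    have h1 : (v 0 : ℝ) ≤ 2 * n := by exact_mod_cast (hSv v hv).2.1
    rw [div_pow, Real.sq_sqrt (by linarith), div_mul_eq_mul_div, div_le_iff₀ (by linarith)]
    have := mul_le_mul_of_nonneg_left h1 (sq_nonneg (M * σ ^ 2))
    linarith
  obtain ⟨m, hm, hm2⟩ := trials (pow_pos p.q_pos' (t * K₁)) (pow_le_one₀ p.q_pos'.le p.q_le_one)
  have hq : (p.q ^ (t * K₁))⁻¹ = Real.exp (((t * K₁ : ℕ) : ℝ) * L) := by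
    rw [hLq, mul_neg, Real.exp_neg, Real.exp_nat_mul, Real.exp_log p.q_pos']
  rw [hq] at hm2
  have zt0 : 0 ≤ (t • z) 0 := by
    simp only [Pi.smul_apply, nsmul_eq_mul]
    positivity
  refine core hF hS (p.sig σ h) d a₁ a (2 * M ^ 2 * σ ^ 4) _
    ⟨g.1, g.2, g.3, g.4, g.5, g.6, g.7, g.8, g.9, g.10, g.11⟩ c1 c0 (t • z) (t * K₁) m n zt0
    hzt.le k0 kn (by exact_mod_cast n1') ?_ S
    (fun v hv => ⟨(hSv v hv).1, (hSv v hv).2.1, hgk v hv⟩) hcard hH (fun v hv => ?_) hLow ?_ hm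
    (size (Nat.cast_nonneg _) L0 h hc hK hm2 (show _ ≤ c by linarith) hn.le)
  · have h1 : (((t • z) 0 : ℤ) : ℝ) ≤ n1 (t • z) := by
      unfold n1
      linarith [le_abs_self (((t • z) 0 : ℤ) : ℝ), abs_nonneg (((t • z) 1 : ℤ) : ℝ),
        abs_nonneg (((t • z) 2 : ℤ) : ℝ)]
    have h2 := mul_le_mul_of_nonneg_right (show B ≤ c by linarith) (zero_le_one.trans s4)
    have : (((t • z) 0 : ℤ) : ℝ) + 1 ≤ n := by linarith
    exact_mod_cast this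
  · have v0 : 0 ≤ v 0 := by have := (hSv v hv).1; omega
    have v0' : (0 : ℝ) ≤ v 0 := by exact_mod_cast v0
    have h1 : (v 0 : ℝ) ≤ 2 * n := by exact_mod_cast (hSv v hv).2.1
    have h2 := g.g_ge v v0
    have h3 := hgk v hv
    have h4 := mul_le_mul_of_nonneg_left h1 hb.le
    have h5 : |(v 1 : ℝ)| + |(v 2 : ℝ)| ≤ 2 / p.r * (2 * p.b + 1) * n := by
      rw [mul_assoc, div_mul_eq_mul_div, le_div_iff₀ hr]
      linarith
    unfold n1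
    rw [abs_of_nonneg v0']
    linarith
  · show a₁ * (2 * M ^ 2 * σ ^ 4 + σ) + p.b + a * (2 * M ^ 2 * σ ^ 4 + σ ^ 4) +
      p.lo * n1 (t • z) ≤ d.ρ (t • z)
    rw [n1_nsmul, d.ρ_nsmul]
    rw [div_le_iff₀ hδ] at t1
    have h1 := mul_le_mul_of_nonneg_left hgain (Nat.cast_nonneg (α := ℝ) t)
    have h2 := mul_le_mul_of_nonneg_left s1 c1
    have h3 := le_mul_of_one_le_right hb.le s4
    rw [hA] at t1
    linarith

end Pool.Agent.Lib.V3K
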