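import Pool.Agent.Lib.V3K.Defs
import Pool.Agent.Lib.V3.B_HALF

/-! The half-space bound from variances on the narrow cone only. -/

namespace Pool.Agent.Lib.V3K

open MeasureTheory ProbabilityTheory Finset SimpleGraph Pool.Agent.Lib.MP_eba68f_pr
  Pool.Agent.Lib.V3 Pool.Agent.Lib.V3.HALF
open scoped NNReal ENNReal

namespace HK

/-- the deterministic alternative -/
theorem alt' (p : Par) {d : Dat} (g : p.Good d) (v : V) (hv : 0 ≤ v 0) (τ : Cfg) (s : ℝ)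
    (D m N : ℕ) (hD : 24 * p.b ≤ p.r * D) (hm : 0 < m)
    (hm' : 4 * (p.g d v + 3 * s) ≤ p.r * m) (hN : p.b / p.r * n1 v < N)
    (hT : p.T τ 0 v < p.h v + 3 * s) :
    p.TA (Up 0) τ 0 v - d.ρ v ≤ p.b * (D * m) + p.g d v + 3 * s ∨
      ∃ i ∈ range N, ∃ w ∈ Finset.Icc (-(2 * D : ℤ)) (2 * D) ×ˢ Finset.Icc (-(2 * D : ℤ)) (2 * D),
        n1 (v - gp (2 ^ i * m) w) ≤ 3 * (p.b / p.r) * n1 v ∧
          p.T τ (gp (2 ^ i * m) w) v ≤
            d.ρ (v - gp (2 ^ i * m) w) - p.r / 8 * (D * (2 ^ i * m)) := by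
  have hr := p.r_pos
  have hb := p.b_pos
  have hrb := p.r_le
  obtain ⟨u, hu, h1⟩ := last p τ v hv
  have h2 := p.T_ge τ 0 u
  have h3 := p.T_le_TA (Up 0) τ u v
  have h4 := p.T_nonneg τ u v
  have h5 := p.T_le0 τ v
  have h6 := p.TA_tri (Up 0) τ 0 u v
  have h7 := p.TA_le (Up 0) τ 0 u
  rw [sub_zero] at h2 h7
  have hu0 := n1_nonneg u
  have hD2 : (24 : ℝ) ≤ D := by
    by_contra h
    nlinarith
  have hm1 : (1 : ℝ) ≤ m := by exact_mod_cast hm
  have hL : (1 : ℝ) ≤ D * m := by nlinarith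
  have hun : n1 u ≤ p.b / p.r * n1 v := by
    rw [div_mul_eq_mul_div, le_div_iff₀ hr]
    linarith
  by_cases hc : n1 u ≤ D * m
  · left
    have := mul_le_mul_of_nonneg_left hc hb.le
    have := mul_nonneg hr.le hu0
    unfold Par.g
    linarith
  right
  rw [not_le] at hc
  obtain ⟨i, hi, hi'⟩ := exists_nat_pow_near (x := n1 u / (D * m)) (y := 2)
    ((one_le_div (by linarith)).2 hc.le) one_lt_two
  rw [le_div_iff₀ (by linarith)] at hi
  rw [div_lt_iff₀ (by linarith), pow_succ] at hi'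
  have hp1 : (1 : ℝ) ≤ 2 ^ i := one_le_pow₀ one_le_two
  have hiN : i < N := by
    have a1 : (i : ℝ) < 2 ^ i := by exact_mod_cast Nat.lt_two_pow_self
    have a2 : (2 : ℝ) ^ i ≤ 2 ^ i * (D * m) := le_mul_of_one_le_right (by linarith) hL
    have : (i : ℝ) < N := by linarith
    exact_mod_cast this
  set M : ℕ := 2 ^ i * m with hM
  have hMr : (M : ℝ) = 2 ^ i * m := by rw [hM]; push_cast; ring
  have hM0 : 0 < M := Nat.mul_pos (Nat.two_pow_pos i) hm
  have hn : n1 u = |(u 1 : ℝ)| + |(u 2 : ℝ)| := by simp [n1, hu]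
  have a1 := abs_nonneg (u 1 : ℝ)
  have a2 := abs_nonneg (u 2 : ℝ)
  have e1 : (2 : ℝ) ^ i * 2 * (D * m) = 2 * D * M := by rw [hMr]; ring
  have e2 : (2 : ℝ) ^ i * (D * m) = D * M := by rw [hMr]; ring
  rw [e1] at hi'
  rw [e2] at hi
  obtain ⟨w1, hw1, k1⟩ := round M D hM0 (u 1) (by linarith)
  obtain ⟨w2, hw2, k2⟩ := round M D hM0 (u 2) (by linarith)
  have hd : n1 (u - gp M (w1, w2)) ≤ 2 * M := by
    simp only [n1, gp, Pi.sub_apply, pt_zero, pt_one, pt_two, hu, sub_zero, Int.cast_zero,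
      abs_zero, Int.cast_sub, Int.cast_mul, Int.cast_natCast]
    linarith
  have hM1 : (0 : ℝ) ≤ M := Nat.cast_nonneg _
  have hgn : n1 (gp M (w1, w2)) ≤ n1 u + 2 * M := by
    have := n1_tri 0 u (gp M (w1, w2))
    rw [sub_zero, sub_zero, n1_sub_comm] at this
    linarith
  have hMu : 24 * M ≤ n1 u := by nlinarith
  refine ⟨i, mem_range.2 hiN, (w1, w2), mem_product.2 ⟨hw1, hw2⟩, ?_, ?_⟩
  · have b1 := n1_add_le v (-gp M (w1, w2))
    rw [n1_neg, ← sub_eq_add_neg] at b1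
    have b2 : n1 v ≤ p.b / p.r * n1 v := le_mul_of_one_le_left (n1_nonneg v) p.one_le_ratio
    linarith
  · have b1 := p.T_tri τ (gp M (w1, w2)) u v
    have b2 := (p.T_le τ (gp M (w1, w2)) u).trans (mul_le_mul_of_nonneg_left hd hb.le)
    have b4 := g.ρ_le (gp M (w1, w2)) (by simp [gp])
    have b5 : n1 (gp M (w1, w2)) =
        |(gp M (w1, w2) 1 : ℝ)| + |(gp M (w1, w2) 2 : ℝ)| := by simp [n1, gp]
    have b6 : (gp M (w1, w2) 0 : ℝ) = 0 := by simp [gp]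
    rw [← b5, b6] at b4
    have b7 := mul_le_mul_of_nonneg_left hgn hr.le
    have b8 : p.r * m ≤ p.r * n1 u := mul_le_mul_of_nonneg_left (by nlinarith) hr.le
    have b9 := mul_le_mul_of_nonneg_left hi hr.le
    have b10 := mul_le_mul_of_nonneg_right hD hM1
    have b11 := mul_le_mul_of_nonneg_right hrb hM1
    rw [← hMr]
    unfold Par.g at hm'
    rw [d.ρ_sub]
    linarith

/-- the local form: only variances of sites of the cone within a bounded range are used -/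
theorem core' (p : Par) {d : Dat} (g : p.Good d) (v : V) (hv : 0 ≤ v 0) (hcv : Cone p v) {s : ℝ}
    (hs : 1 ≤ s) (hV : ∀ z : V, Cone p z → n1 z ≤ 3 * (p.b / p.r) * n1 v → p.Vr z ≤ s ^ 2) :
    1 / 2 ≤ p.pr {τ | p.TA (Up 0) τ 0 v - d.ρ v ≤ C0 p.r p.b * (p.g d v + s)} := by
  have hr := p.r_pos
  have hb := p.b_pos
  have hq := p.one_le_ratio
  have hg := g.G1 v hv
  set D : ℕ := ⌈24 * (p.b / p.r)⌉₊ with hDd
  set m : ℕ := ⌈(4 * p.g d v + 132 * s) / p.r⌉₊ with hmd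
  obtain ⟨N, hN⟩ := exists_nat_gt (p.b / p.r * n1 v)
  have hD1 : 24 * (p.b / p.r) ≤ D := Nat.le_ceil _
  have hD2 : (D : ℝ) ≤ 25 * (p.b / p.r) := by
    have := Nat.ceil_lt_add_one (a := 24 * (p.b / p.r)) (by positivity)
    linarith
  have hD : 24 * p.b ≤ p.r * D := by
    rw [← mul_div_assoc, div_le_iff₀ hr] at hD1
    linarith
  have hx : 0 < (4 * p.g d v + 132 * s) / p.r := by positivity
  have hm0 : 0 < m := Nat.ceil_pos.2 hx
  have hm1 : 4 * p.g d v + 132 * s ≤ p.r * m := by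
    have : (4 * p.g d v + 132 * s) / p.r ≤ m := Nat.le_ceil _
    rw [div_le_iff₀ hr] at this
    linarith
  have hm2 : (m : ℝ) ≤ (132 / p.r + 1) * (p.g d v + s) := by
    have a1 := Nat.ceil_lt_add_one hx.le
    have a2 : (4 * p.g d v + 132 * s) / p.r ≤ 132 / p.r * (p.g d v + s) := by
      rw [div_mul_eq_mul_div]
      exact div_le_div_of_nonneg_right (by linarith) hr.le
    linarith
  have hmr : (0 : ℝ) < m := by exact_mod_cast hm0
  have hD0 : (1 : ℝ) ≤ D := by linarith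
  set I := Finset.Icc (-(2 * D : ℤ)) (2 * D) with hI
  have hIc : (I.card : ℝ) ≤ 5 * D := by
    have a1 : (I.card : ℤ) = 4 * D + 1 := by
      rw [hI, Int.card_Icc_of_le _ _ (by omega)]
      ring
    have a2 : (I.card : ℝ) = 4 * D + 1 := by exact_mod_cast a1
    linarith
  let E : ℕ → ℤ × ℤ → Set Cfg := fun i w =>
    {τ | n1 (v - gp (2 ^ i * m) w) ≤ 3 * (p.b / p.r) * n1 v ∧
      p.T τ (gp (2 ^ i * m) w) v ≤ d.ρ (v - gp (2 ^ i * m) w) - p.r / 8 * (D * (2 ^ i * m))}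
  have hE : ∀ i w, p.pr (E i w) ≤ s ^ 2 / (p.r / 8 * (D * (2 ^ i * m))) ^ 2 := by
    intro i w
    have z0 : 0 ≤ (v - gp (2 ^ i * m) w) 0 := by simpa [gp] using hv
    have t0 : 0 < p.r / 8 * (D * (2 ^ i * m)) := by positivity
    by_cases h : Cone p (v - gp (2 ^ i * m) w) ∧
        n1 (v - gp (2 ^ i * m) w) ≤ 3 * (p.b / p.r) * n1 v
    · refine (p.pr_mono fun τ hτ => ?_).trans (low p (gp (2 ^ i * m) w) v (hV _ h.1 h.2) t0)
      have a1 := g.G1 _ z0
      have a2 := hτ.2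
      unfold Par.g at a1
      show p.T τ (gp (2 ^ i * m) w) v ≤ p.h (v - gp (2 ^ i * m) w) - p.r / 8 * (D * (2 ^ i * m))
      linarith
    · rw [p.pr_eq_zero fun τ hτ => h ⟨?_, hτ.1⟩]
      · positivity
      have a1 := T_sub_ρ' g τ (gp (2 ^ i * m) w) v z0
      have a2 := hτ.2
      have a3 : (0 : ℝ) ≤ (v - gp (2 ^ i * m) w) 0 := by exact_mod_cast z0
      have a4 := mul_nonneg (gap_pos p).le a3
      unfold Cone
      linarith
  have hE2 : ∀ i : ℕ, p.pr (⋃ w ∈ I ×ˢ I, E i w) ≤ 1 / 8 * (1 / 2) ^ i := by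
    intro i
    refine (p.pr_biUnion_le _ _).trans ((sum_le_card_nsmul _ _ _ fun w _ => hE i w).trans ?_)
    rw [card_product, nsmul_eq_mul, Nat.cast_mul, ← mul_div_assoc, div_le_iff₀ (by positivity)]
    have hp1 : (1 : ℝ) ≤ 2 ^ i := one_le_pow₀ one_le_two
    have a1 : (I.card : ℝ) * I.card ≤ (5 * D) * (5 * D) :=
      mul_le_mul hIc hIc (Nat.cast_nonneg _) (by positivity)
    have a2 : (132 * s) ^ 2 ≤ (p.r * m) ^ 2 := pow_le_pow_left₀ (by positivity) (by linarith) 2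
    have a3 : 1 / 8 * (1 / 2 : ℝ) ^ i * (p.r / 8 * (D * (2 ^ i * m))) ^ 2 =
        2 ^ i * (D ^ 2 * (p.r * m) ^ 2 / 512) := by
      rw [one_div_pow]
      field_simp
      norm_num
    have a4 : (D : ℝ) ^ 2 * (132 * s) ^ 2 ≤ D ^ 2 * (p.r * m) ^ 2 :=
      mul_le_mul_of_nonneg_left a2 (sq_nonneg _)
    have a5 := mul_le_mul_of_nonneg_right a1 (sq_nonneg s)
    have a6 : (D : ℝ) ^ 2 * (p.r * m) ^ 2 / 512 ≤ 2 ^ i * (D ^ 2 * (p.r * m) ^ 2 / 512) :=
      le_mul_of_one_le_left (by positivity) hp1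
    have a7 : 0 ≤ (D : ℝ) ^ 2 * s ^ 2 := by positivity
    rw [a3]
    nlinarith
  have hE3 : p.pr (⋃ i ∈ range N, ⋃ w ∈ I ×ˢ I, E i w) ≤ 1 / 4 := by
    refine (p.pr_biUnion_le _ _).trans ((sum_le_sum fun i _ => hE2 i).trans ?_)
    rw [← mul_sum]
    linarith [sum_geometric_two_le N]
  have hH : p.pr {τ | p.h (v - 0) + 3 * s ≤ p.T τ 0 v} ≤ 1 / 9 := by
    refine (high p 0 v (s := s) (hV _ (by rwa [sub_zero]) ?_) (by positivity)).trans (le_of_eq ?_)
    · rw [sub_zero]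
      nlinarith [n1_nonneg v]
    · field_simp
      norm_num
  have hC : p.b * (D * m) + p.g d v + 3 * s ≤ C0 p.r p.b * (p.g d v + s) := by
    have a1 : (D : ℝ) * m ≤ 25 * (p.b / p.r) * ((132 / p.r + 1) * (p.g d v + s)) :=
      mul_le_mul hD2 hm2 hmr.le (by positivity)
    have a2 := mul_le_mul_of_nonneg_left a1 hb.le
    unfold C0
    linarith
  have hsub := p.pr_mono
    (A := {τ | p.TA (Up 0) τ 0 v - d.ρ v ≤ C0 p.r p.b * (p.g d v + s)}ᶜ)
    (B := {τ | p.h (v - 0) + 3 * s ≤ p.T τ 0 v} ∪ ⋃ i ∈ range N, ⋃ w ∈ I ×ˢ I, E i w)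
    fun τ hτ => by
      by_cases h : p.h (v - 0) + 3 * s ≤ p.T τ 0 v
      · exact Or.inl h
      rw [sub_zero, not_le] at h
      rcases alt' p g v hv τ s D m N hD hm0 (by linarith) hN h with h1 | ⟨i, hi, w, hw, h1⟩
      · exact absurd (h1.trans hC) hτ
      · exact Or.inr (Set.mem_biUnion hi (Set.mem_biUnion hw h1))
  have h1 := p.one_le_pr_add {τ | p.TA (Up 0) τ 0 v - d.ρ v ≤ C0 p.r p.b * (p.g d v + s)}
  have h2 := hsub.trans (p.pr_union_le _ _)
  linarith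

/-- the constant off the cone -/
noncomputable def C1 (p : Par) : ℝ := C0 p.r p.b + 6 * p.b * (1 / p.r + 1 / (p.b - p.r))

theorem C1_pos (p : Par) : 0 < C1 p := by
  have := C0_pos p
  have := p.r_pos
  have := p.b_pos
  have := gap_pos p
  unfold C1
  positivity

/-- off the cone the bound is deterministic -/
theorem off (p : Par) {d : Dat} (g : p.Good d) (v : V) (hv : 0 ≤ v 0) (hc : ¬ Cone p v)
    (τ : Cfg) :
    p.TA (Up 0) τ 0 v - d.ρ v ≤ 6 * p.b * (1 / p.r + 1 / (p.b - p.r)) * p.g d v := by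
  have hr := p.r_pos
  have hb := p.b_pos
  have hg := gap_pos p
  have h1 := p.TA_le (Up 0) τ 0 v
  have h2 := (abs_le.1 (g.abs_ρ v)).1
  have h3 := g_ge' g v hv
  have h4 := perp_nonneg v
  have h5 : (0 : ℝ) ≤ v 0 := by exact_mod_cast hv
  rw [sub_zero] at h1
  unfold Cone at hc
  have h6 : perp v ≤ 3 * (1 / p.r * p.g d v) := by
    rw [one_div, ← div_eq_inv_mul, ← mul_div_assoc, le_div_iff₀ hr]
    nlinarith
  have h7 : (v 0 : ℝ) ≤ 3 * (1 / (p.b - p.r) * p.g d v) := by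
    rw [one_div, ← div_eq_inv_mul, ← mul_div_assoc, le_div_iff₀ hg]
    nlinarith [mul_nonneg hg.le h5]
  have h8 := mul_le_mul_of_nonneg_left (add_le_add h7 h6) hb.le
  rw [n1_eq hv] at h1 h2
  linarith

theorem core2 (p : Par) {d : Dat} (g : p.Good d) (v : V) (hv : 0 ≤ v 0) {s : ℝ}
    (hs : 1 ≤ s) (hV : ∀ z : V, Cone p z → n1 z ≤ 3 * (p.b / p.r) * n1 v → p.Vr z ≤ s ^ 2) :
    1 / 2 ≤ p.pr {τ | p.TA (Up 0) τ 0 v - d.ρ v ≤ C1 p * (p.g d v + s)} := by
  have hr := p.r_pos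
  have hb := p.b_pos
  have hg := gap_pos p
  have h0 := C0_pos p
  have h1 := g.G1 v hv
  have h2 : 0 ≤ 6 * p.b * (1 / p.r + 1 / (p.b - p.r)) := by positivity
  by_cases hc : Cone p v
  · refine (core' p g v hv hc hs hV).trans (p.pr_mono fun τ hτ => ?_)
    have h3 : p.TA (Up 0) τ 0 v - d.ρ v ≤ C0 p.r p.b * (p.g d v + s) := hτ
    show p.TA (Up 0) τ 0 v - d.ρ v ≤ C1 p * (p.g d v + s)
    unfold C1
    nlinarith [mul_nonneg h2 (show 0 ≤ p.g d v + s by linarith)]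
  · have : {τ | p.TA (Up 0) τ 0 v - d.ρ v ≤ C1 p * (p.g d v + s)} = Set.univ :=
      Set.eq_univ_of_forall fun τ => by
        have h3 := off p g v hv hc τ
        show p.TA (Up 0) τ 0 v - d.ρ v ≤ C1 p * (p.g d v + s)
        unfold C1
        nlinarith [mul_nonneg h0.le (show 0 ≤ p.g d v + s by linarith),
          mul_nonneg h2 (show 0 ≤ s by linarith)]
    rw [this, p.pr_univ]
    norm_num

end HK

end Pool.Agent.Lib.V3K
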