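import Pool.Agent.Lib.V3K.Defs

/-! Nearly straight walks carry many heavy edges. -/

namespace Pool.Agent.Lib.V3K

open MeasureTheory ProbabilityTheory Filter Topology Function Finset SimpleGraph
  Pool.Agent.Lib.MP_eba68f_pr Pool.Agent.Lib.V3
open scoped NNReal ENNReal

namespace HV

lemma sum_nb {t : ℝ} (ht : 1 ≤ t) (u : V) (c : ℤ) :
    ∑ w ∈ nb u, t ^ (w 0 - c) ≤ (t + 5) * t ^ (u 0 - c) := by
  have t0 : 0 < t := by linarith
  have hp : 0 < t ^ (u 0 - c) := zpow_pos t0 _
  have h1 : ∀ w ∈ nb u, t ^ (w 0 - c) ≤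
      (1 + if w = u + e0 then t - 1 else 0) * t ^ (u 0 - c) := fun w hw => by
    by_cases h : w = u + e0
    · have : w 0 - c = 1 + (u 0 - c) := by rw [h]; simp; ring
      rw [if_pos h, this, zpow_add₀ t0.ne']
      simp
    · rw [if_neg h, add_zero, one_mul]
      refine zpow_le_zpow_right₀ ht ?_
      by_contra hc
      exact h (up_step (mem_nb.1 hw) (by omega))
  refine (sum_le_sum h1).trans ?_
  rw [← sum_mul, sum_add_distrib, sum_ite_eq']
  refine mul_le_mul_of_nonneg_right ?_ hp.le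
  have h2 : ((nb u).card : ℝ) ≤ 6 := by exact_mod_cast card_nb u
  simp only [sum_const, nsmul_eq_mul, mul_one]
  split_ifs <;> linarith

/-- weighted count of walks -/
lemma cnt {t : ℝ} (ht : 1 ≤ t) (l : ℕ) : ∀ u v : V,
    ((G.finsetWalkLength l u v).card : ℝ) ≤ (t + 5) ^ l * t ^ (u 0 - v 0) := by
  have t0 : 0 < t := by linarith
  induction l with
  | zero =>
    intro u v
    by_cases h : u = v
    · subst h
      simp [finsetWalkLength]
    · simp only [finsetWalkLength, h, dite_false, card_empty, Nat.cast_zero]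
      positivity
  | succ l ih =>
    intro u v
    have h1 : (G.finsetWalkLength (l + 1) u v).card ≤
        ∑ w : G.neighborSet u, (G.finsetWalkLength l w v).card := by
      simp only [finsetWalkLength]
      refine card_biUnion_le.trans (le_of_eq ?_)
      simp
    have h2 : ∑ w : G.neighborSet u, ((G.finsetWalkLength l w v).card : ℝ) =
        ∑ w ∈ nb u, ((G.finsetWalkLength l w v).card : ℝ) :=
      (sum_subtype (nb u) (fun w => by rw [mem_nb, mem_neighborSet])
        fun w => ((G.finsetWalkLength l w v).card : ℝ)).symm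
    calc ((G.finsetWalkLength (l + 1) u v).card : ℝ)
        ≤ ∑ w : G.neighborSet u, ((G.finsetWalkLength l w v).card : ℝ) := by exact_mod_cast h1
      _ ≤ ∑ w ∈ nb u, (t + 5) ^ l * t ^ (w 0 - v 0) := by
          rw [h2]; exact sum_le_sum fun w _ => ih w v
      _ ≤ (t + 5) ^ l * ((t + 5) * t ^ (u 0 - v 0)) := by
          rw [← mul_sum]
          exact mul_le_mul_of_nonneg_left (sum_nb ht u _) (by positivity)
      _ = _ := by ring

open Classical in
/-- few heavy edges in a fixed finite set of edges -/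
lemma few (p : Par) (E : Finset (Sym2 V)) {u a : ℝ} (u0 : 0 < u) (u1 : u ≤ 1) :
    p.pr {τ | ((E.filter fun e => p.hi < τ e).card : ℝ) ≤ a} ≤
      (u + p.F.real (Set.Iic p.hi)) ^ E.card * u ^ (-a) := by
  set s := p.F.real (Set.Iic p.hi) with hs
  have s0 : 0 ≤ s := measureReal_nonneg
  have h1 : {τ : Cfg | ((E.filter fun e => p.hi < τ e).card : ℝ) ≤ a} ⊆
      ⋃ H ∈ E.powerset.filter (fun H => (H.card : ℝ) ≤ a),
        {τ | ∀ e ∈ E \ H, τ e ∈ Set.Iic p.hi} := fun τ hτ => by
    simp only [Set.mem_iUnion]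
    refine ⟨E.filter fun e => p.hi < τ e,
      mem_filter.2 ⟨mem_powerset.2 (filter_subset _ _), hτ⟩, fun e he => ?_⟩
    rw [Finset.mem_sdiff, mem_filter] at he
    exact not_lt.1 fun h => he.2 ⟨he.1, h⟩
  refine (p.pr_mono h1).trans ((p.pr_biUnion_le _ _).trans ?_)
  rw [← sum_pow_mul_eq_add_pow, sum_mul]
  refine le_trans (sum_le_sum fun H hH => ?_)
    (sum_le_sum_of_subset_of_nonneg (filter_subset (fun H : Finset (Sym2 V) => (H.card : ℝ) ≤ a) _)
      fun H _ _ => by positivity)
  rw [mem_filter, mem_powerset] at hH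
  rw [p.pr_all _ measurableSet_Iic, card_sdiff_of_subset hH.1, ← hs]
  have h2 : 1 ≤ u ^ H.card * u ^ (-a) := by
    rw [← Real.rpow_natCast, ← Real.rpow_add u0]
    exact Real.one_le_rpow_of_pos_of_le_one_of_nonpos u0 u1 (by linarith [hH.2])
  nlinarith [pow_nonneg s0 (E.card - H.card)]

open Classical in
/-- sites of a walk whose upper edge lies on the walk and crosses a middle slab -/
noncomputable def YY (n : ℕ) {x : V} (q : G.Walk 0 x) : Finset V :=
  q.support.toFinset.filter fun y => ed y ∈ q.edges ∧ ∃ j ∈ JJ n, y 0 = ((j : ℕ) : ℤ)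

lemma mem_supp {x y : V} (q : G.Walk 0 x) (h : ed y ∈ q.edges) : y ∈ q.support.toFinset :=
  List.mem_toFinset.2 (Walk.mem_support_of_mem_edges h (Sym2.mem_mk_left _ _))

lemma JJ_lt {n j : ℕ} (h : j ∈ JJ n) : j < n := mem_range.1 (mem_filter.1 h).1

lemma card_YY_ge {n : ℕ} {x : V} (hx : x 0 = n) (q : G.Walk 0 x) :
    (JJ n).card ≤ (YY n q).card := by
  classical
  refine card_le_card_of_surjOn (fun y : V => (y 0).toNat) fun j hj => ?_
  have hj' : j ∈ JJ n := hj
  have := JJ_lt hj'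
  obtain ⟨y, hy, he⟩ := slab_edge q (j := j) (by simp) (by omega)
  exact ⟨y, mem_coe.2 (mem_filter.2 ⟨mem_supp q he, he, j, hj', hy⟩), by simp [hy]⟩

lemma card_YY_le {n : ℕ} {x : V} (hx : x 0 = n) (q : G.Walk 0 x) :
    (YY n q).card + n ≤ q.length + (JJ n).card := by
  classical
  set Y : Finset V := q.support.toFinset.filter fun y => ed y ∈ q.edges with hY
  have h1 : Y.card ≤ q.length := by
    rw [← Walk.length_edges]
    refine le_trans (card_le_card_of_injOn ed (fun y hy => ?_) ed_inj.injOn)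
      (List.toFinset_card_le _)
    exact mem_coe.2 (List.mem_toFinset.2 (mem_filter.1 hy).2)
  have h2 : YY n q = Y.filter fun y : V => ∃ j ∈ JJ n, y 0 = ((j : ℕ) : ℤ) := by
    ext y
    simp only [hY, YY, mem_filter, and_assoc]
  have h3 := card_filter_add_card_filter_not (s := Y) fun y : V => ∃ j ∈ JJ n, y 0 = ((j : ℕ) : ℤ)
  have h4 : (range n \ JJ n).card ≤ (Y.filter fun y : V => ¬ ∃ j ∈ JJ n, y 0 = ((j : ℕ) : ℤ)).card := by
    refine card_le_card_of_surjOn (fun y : V => (y 0).toNat) fun j hj => ?_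
    have hj' : j ∈ range n \ JJ n := hj
    rw [Finset.mem_sdiff, mem_range] at hj'
    obtain ⟨y, hy, he⟩ := slab_edge q (j := j) (by simp) (by omega)
    refine ⟨y, mem_coe.2 (mem_filter.2 ⟨mem_filter.2 ⟨mem_supp q he, he⟩, ?_⟩), by simp [hy]⟩
    rintro ⟨i, hi, h⟩
    have : i = j := by omega
    exact hj'.2 (this ▸ hi)
  have h5 : JJ n ⊆ range n := filter_subset _ _
  rw [card_sdiff_of_subset h5, card_range] at h4
  have h6 := card_le_card h5
  rw [card_range] at h6
  rw [h2]
  omega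

open Classical in
lemma heavy_le (p : Par) {n : ℕ} {x : V} (hx : x 0 = n) (q : G.Walk 0 x) (τ : Cfg) :
    (((YY n q).image ed).filter fun e => p.hi < τ e).card + n ≤
      q.length + (hv p n τ q).card := by
  have h1 := card_YY_le hx q
  have h2 := card_filter_add_card_filter_not (s := YY n q) fun y => p.hi < τ (ed y)
  have h3 : (((YY n q).image ed).filter fun e => p.hi < τ e).card ≤
      ((YY n q).filter fun y => p.hi < τ (ed y)).card := by
    rw [filter_image]; exact card_image_le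
  have h4 : (JJ n \ hv p n τ q).card ≤ ((YY n q).filter fun y => ¬ p.hi < τ (ed y)).card := by
    refine card_le_card_of_surjOn (fun y : V => (y 0).toNat) fun j hj => ?_
    have hj' : j ∈ JJ n \ hv p n τ q := hj
    rw [Finset.mem_sdiff, hv, mem_filter, not_and] at hj'
    have h := hj'.2 hj'.1
    push Not at h
    obtain ⟨y, hy, he, hl⟩ := h
    exact ⟨y, mem_coe.2 (mem_filter.2 ⟨mem_filter.2 ⟨mem_supp q he, he, j, hj'.1, hy⟩,
      not_lt.2 hl⟩), by simp [hy]⟩
  have h5 : hv p n τ q ⊆ JJ n := filter_subset _ _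
  rw [card_sdiff_of_subset h5] at h4
  have h6 := card_le_card h5
  omega

lemma tail {c : ℝ} (hc : 0 < c) :
    ∃ n₀ : ℕ, ∀ n : ℕ, n₀ ≤ n → (3 * (n : ℝ) + 1) * Real.exp (-(c * n)) ≤ 1 / 100 := by
  obtain ⟨N, hN⟩ := exists_nat_ge (800 / c ^ 2)
  refine ⟨N + 1, fun n hn => ?_⟩
  have h1 : (N : ℝ) + 1 ≤ n := by exact_mod_cast hn
  have h0 : (0 : ℝ) ≤ N := Nat.cast_nonneg N
  have h2 := Real.quadratic_le_exp_of_nonneg (x := c * n) (by positivity)
  have h3 : 800 ≤ n * c ^ 2 := (div_le_iff₀ (by positivity)).1 (by linarith)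
  have h4 : 0 ≤ c * n := by positivity
  rw [Real.exp_neg, ← div_eq_mul_inv, div_le_div_iff₀ (Real.exp_pos _) (by norm_num)]
  nlinarith

end HV

open HV in
/-- the walk count is beaten by the cost of avoiding heavy edges -/
theorem heavy_of (p : Par) {κ t : ℝ} (hκ : 0 ≤ κ) (ht : 1 ≤ t) (hρ : 4 * (p.b - p.r) ≤ p.r)
    (hc : 13 / t + (κ + 12 * ((p.b - p.r) / p.r)) * Real.log t <
      (1 - p.F.real (Set.Iic p.hi)) / 4) : ∃ n₀, 24 ≤ n₀ ∧ Heavy p κ n₀ := by
  classical
  have hr := p.r_pos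
  have hg := gap_pos p
  set ρ := (p.b - p.r) / p.r with hρ'
  set s := p.F.real (Set.Iic p.hi) with hs
  have s0 : 0 ≤ s := measureReal_nonneg
  have ρ0 : 0 < ρ := div_pos hg hr
  have ρ1 : ρ ≤ 1 / 4 := by rw [hρ', div_le_iff₀ hr]; linarith
  have t0 : 0 < t := by linarith
  have l0 : 0 ≤ Real.log t := Real.log_nonneg ht
  have hti : 0 < 1 / t := by positivity
  have h13 : 13 / t = 13 * (1 / t) := by ring
  have hl : 0 ≤ (κ + 12 * ρ) * Real.log t := by positivity
  set c := (1 - s) / 4 - (13 / t + (κ + 12 * ρ) * Real.log t) with hcc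
  obtain ⟨N, hN⟩ := tail (c := c) (by linarith)
  refine ⟨max N 24, le_max_right _ _, fun n x hn hx hp => ?_⟩
  have n24 : 24 ≤ n := (le_max_right _ _).trans hn
  have n0 : (0 : ℝ) ≤ n := Nat.cast_nonneg n
  refine le_trans ?_ (hN n ((le_max_left _ _).trans hn))
  have hL : p.b / p.r * n1 x ≤ (1 + 6 * ρ) * n := by
    have e1 : p.b / p.r = 1 + ρ := by rw [hρ']; field_simp; ring
    have e2 : perp x ≤ 4 * ρ * n := by
      rw [hρ', show 4 * ((p.b - p.r) / p.r) * n = 4 * (p.b - p.r) * n / p.r by ring,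
        le_div_iff₀ hr]
      linarith
    have e3 : (x 0 : ℝ) = n := by rw [hx]; simp
    rw [e1, n1_eq (by omega), e3]
    nlinarith [mul_nonneg (mul_nonneg ρ0.le n0) (sub_nonneg.2 ρ1)]
  set L := ⌊(1 + 6 * ρ) * n⌋₊ with hLL
  have hL1 : (L : ℝ) ≤ (1 + 6 * ρ) * n := Nat.floor_le (by positivity)
  have h1 : Bad p κ n x ⊆ ⋃ l ∈ range (L + 1), ⋃ q ∈ G.finsetWalkLength l 0 x,
      {τ | ((((YY n q).image ed).filter fun e => p.hi < τ e).card : ℝ) ≤ (κ + 6 * ρ) * n} := by
    rintro τ ⟨q, hq, hb⟩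
    simp only [Set.mem_iUnion]
    refine ⟨q.length, mem_range.2 (Nat.lt_succ_of_le (Nat.le_floor (hq.trans hL))), q,
      mem_finsetWalkLength_iff.2 rfl, ?_⟩
    have h2 : ((((YY n q).image ed).filter fun e => p.hi < τ e).card : ℝ) + n ≤
        q.length + (hv p n τ q).card := by exact_mod_cast heavy_le p hx q τ
    show ((((YY n q).image ed).filter fun e => p.hi < τ e).card : ℝ) ≤ (κ + 6 * ρ) * n
    linarith
  have hs1 : 1 / t + s ≤ 1 := by linarith
  have h2 : ∀ q : G.Walk 0 x, p.pr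
      {τ | ((((YY n q).image ed).filter fun e => p.hi < τ e).card : ℝ) ≤ (κ + 6 * ρ) * n} ≤
      Real.exp (-((1 - s - 1 / t) * (n / 4)) + (κ + 6 * ρ) * n * Real.log t) := fun q => by
    refine (few p _ hti (by rw [div_le_one t0]; exact ht)).trans ?_
    rw [Real.exp_add, card_image_of_injective _ ed_inj, ← hs]
    refine mul_le_mul ?_ (le_of_eq ?_) (by positivity) (Real.exp_pos _).le
    · have a1 : 1 / t + s ≤ Real.exp (-(1 - s - 1 / t)) := by
        linarith [Real.add_one_le_exp (-(1 - s - 1 / t))]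
      refine (pow_le_pow_left₀ (by positivity) a1 _).trans ?_
      rw [← Real.exp_nat_mul]
      refine Real.exp_le_exp.2 ?_
      have a2 : ((JJ n).card : ℝ) ≤ (YY n q).card := by exact_mod_cast card_YY_ge hx q
      have a3 := card_JJ n24
      nlinarith
    · rw [Real.rpow_def_of_pos hti, one_div, Real.log_inv]
      congr 1
      ring
  have h3 : ∀ l ∈ range (L + 1), ((G.finsetWalkLength l 0 x).card : ℝ) ≤
      Real.exp (25 / 2 * (1 / t) * n + 6 * ρ * n * Real.log t) := fun l hl' => by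
    have a0 : (l : ℝ) ≤ (1 + 6 * ρ) * n :=
      le_trans (by exact_mod_cast Nat.lt_succ_iff.1 (mem_range.1 hl')) hL1
    refine (cnt ht l 0 x).trans ?_
    have a1 : t + 5 ≤ Real.exp (Real.log t + 5 * (1 / t)) := by
      rw [Real.exp_add, Real.exp_log t0]
      have := mul_le_mul_of_nonneg_left (Real.add_one_le_exp (5 * (1 / t))) t0.le
      have e : t * (5 * (1 / t) + 1) = t + 5 := by field_simp; ring
      linarith
    have a2 : t ^ ((0 : V) 0 - x 0) = Real.exp (-(n * Real.log t)) := by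
      rw [hx, Real.exp_neg, Real.exp_nat_mul, Real.exp_log t0]
      simp
    rw [a2]
    refine (mul_le_mul_of_nonneg_right (pow_le_pow_left₀ (by positivity) a1 l)
      (Real.exp_pos _).le).trans ?_
    rw [← Real.exp_nat_mul, ← Real.exp_add]
    refine Real.exp_le_exp.2 ?_
    have a3 := mul_le_mul_of_nonneg_right a0 (show 0 ≤ Real.log t + 5 * (1 / t) by positivity)
    have a4 := mul_le_mul_of_nonneg_right ρ1 (show 0 ≤ (n : ℝ) * (1 / t) by positivity)
    nlinarith
  refine (p.pr_mono h1).trans ((p.pr_biUnion_le _ _).trans ?_)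
  have h4 : ∀ l ∈ range (L + 1), p.pr (⋃ q ∈ G.finsetWalkLength l 0 x,
      {τ | ((((YY n q).image ed).filter fun e => p.hi < τ e).card : ℝ) ≤ (κ + 6 * ρ) * n}) ≤
      Real.exp (-(c * n)) := fun l hl' => by
    refine (p.pr_biUnion_le _ _).trans ((sum_le_card_nsmul _ _ _ fun q _ => h2 q).trans ?_)
    rw [nsmul_eq_mul]
    refine (mul_le_mul_of_nonneg_right (h3 l hl') (Real.exp_pos _).le).trans ?_
    rw [← Real.exp_add]
    refine Real.exp_le_exp.2 ?_
    rw [hcc, h13]
    nlinarith [mul_nonneg n0 hti.le]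
  refine (sum_le_card_nsmul _ _ _ h4).trans ?_
  rw [nsmul_eq_mul, card_range]
  refine mul_le_mul_of_nonneg_right ?_ (Real.exp_pos _).le
  push_cast
  nlinarith

/-- heavy edges add to the weight of a list of edges -/
lemma LW_heavy (p : Par) (τ : Cfg) (l : List (Sym2 V)) : ∀ s : Finset (Sym2 V),
    (∀ e ∈ s, e ∈ l ∧ p.hi < τ e) → p.r * l.length + (p.hi - p.r) * s.card ≤ p.LW τ l := by
  classical
  have hh : 0 ≤ (p.hi : ℝ) - p.r := by linarith [p.r_le_lo, p.lo_lt_hi]
  induction l with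
  | nil =>
    intro s hs
    have : s = ∅ := eq_empty_of_forall_notMem fun e he => by simpa using (hs e he).1
    simp [this]
  | cons a l ih =>
    intro s hs
    have h1 := ih (s.erase a) fun e he => by
      rw [mem_erase] at he
      exact ⟨(List.mem_cons.1 (hs e he.2).1).resolve_left he.1, (hs e he.2).2⟩
    simp only [Par.LW_cons, List.length_cons, Nat.cast_add, Nat.cast_one]
    by_cases ha : a ∈ s
    · have h2 : (s.card : ℝ) = (s.erase a).card + 1 := by
        exact_mod_cast (card_erase_add_one ha).symm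
      have h3 := p.w_mono (hs a ha).2.le
      rw [p.w_hi] at h3
      rw [h2]
      linarith
    · rw [erase_eq_of_notMem ha] at h1
      linarith [p.w_ge (τ a)]

/-- near the axis the mean passage time exceeds the minimal one linearly -/
theorem h_heavy {p : Par} {κ : ℝ} {n₀ : ℕ} (hκ : 0 ≤ κ) (hH : Heavy p κ n₀) (n : ℕ) (x : V)
    (hn : n₀ ≤ n) (hx : x 0 = n) (hp : p.r * perp x ≤ 4 * (p.b - p.r) * n) :
    p.r * n1 x + (p.hi - p.r) * κ * n / 2 ≤ p.h x := by
  classical
  have hh : 0 ≤ (p.hi : ℝ) - p.r := by linarith [p.r_le_lo, p.lo_lt_hi]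
  set D := (p.hi - p.r) * κ * n with hD
  have D0 : 0 ≤ D := by positivity
  set B : Set Cfg := {τ | p.T τ 0 x < p.r * n1 x + D} with hB
  have hBm : MeasurableSet B := measurableSet_lt (p.T_meas 0 x) measurable_const
  have h1 : B ⊆ Bad p κ n x := fun τ hτ => by
    obtain ⟨q, -, hq⟩ := p.exists_geo τ 0 x
    refine ⟨q, by simpa using p.geo_length hq, ?_⟩
    by_contra hc
    have h2 : ∀ j : ℕ, ∃ y : V, j < n → y 0 = j ∧ ed y ∈ q.edges := fun j => by
      by_cases hj : j < n
      · obtain ⟨y, hy⟩ := slab_edge q (j := j) (by simp) (by omega)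
        exact ⟨y, fun _ => hy⟩
      · exact ⟨0, fun h => absurd h hj⟩
    choose y hy using h2
    have h3 : ∀ j ∈ hv p n τ q, j < n := fun j hj => HV.JJ_lt (mem_filter.1 hj).1
    have h4 := LW_heavy p τ q.edges ((hv p n τ q).image fun j => ed (y j)) fun e he => by
      obtain ⟨j, hj, rfl⟩ := mem_image.1 he
      exact ⟨(hy j (h3 j hj)).2, (mem_filter.1 hj).2 _ (hy j (h3 j hj)).1 (hy j (h3 j hj)).2⟩
    rw [card_image_of_injOn fun i hi j hj h => by
      have a1 := (hy i (h3 i hi)).1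
      have a2 := (hy j (h3 j hj)).1
      rw [ed_inj h] at a1
      omega, Walk.length_edges, hq] at h4
    have h5 := n1_le_length q
    rw [sub_zero] at h5
    have h6 : p.T τ 0 x < p.r * n1 x + D := hτ
    have h7 := mul_le_mul_of_nonneg_left (not_lt.1 hc) hh
    have h8 := mul_le_mul_of_nonneg_left h5 p.r_pos.le
    rw [hD] at h6
    linarith
  have h2 := (p.pr_mono h1).trans (hH n x hn hx hp)
  have h3 := integral_mono ((Nice.const (p.r * n1 x + D)).int p.P)
    (((p.T_nice 0 x).add ((Nice.const D).mul (Nice.ind hBm))).int p.P) fun τ => by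
      by_cases hτ : τ ∈ B
      · have := p.T_ge τ 0 x
        rw [sub_zero] at this
        simp only [Set.indicator_of_mem hτ]
        linarith
      · have : ¬ p.T τ 0 x < p.r * n1 x + D := hτ
        simp only [Set.indicator_of_notMem hτ]
        linarith
  rw [integral_add ((p.T_nice 0 x).int _) (((Nice.const D).mul (Nice.ind hBm)).int _),
    integral_const_mul, p.int_ind hBm] at h3
  simp only [integral_const, probReal_univ, smul_eq_mul, one_mul] at h3
  unfold Par.h
  nlinarith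

end Pool.Agent.Lib.V3K
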