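import Pool.Agent.Lib.V3K.Defs
import Pool.Agent.Lib.V3.LowK8

/-! The lower tail bound on a plane from variances on the narrow cone. -/

namespace Pool.Agent.Lib.V3K

open MeasureTheory ProbabilityTheory Filter Topology Function Finset SimpleGraph
  Pool.Agent.Lib.MP_eba68f_pr Pool.Agent.Lib.V3
open scoped NNReal ENNReal

namespace LK

open LOW (idx bad_meas eta_three cone pt_self abs_int)
open LOWK (cnt cnt_nice cnt_nonneg int_cnt arith le_cnt)

/-- the deterministic step: a low site of the plane and a good continuation give a bad site -/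
lemma det' {p : Par} {d : Dat} (g : p.Good d) {B L k lam : ℝ} {n : ℕ} {j : ℤ} {y v : V}
    {τ τ' : Cfg} (hρ : 4 * (p.b - p.r) ≤ p.r) (hL : 0 ≤ L)
    (hl : B + p.b + k / 6 + p.R ^ 2 + L ≤ lam) (hn : 1 ≤ n) (hkn : k ≤ n)
    (hv1 : (n : ℤ) ≤ 2 * v 0) (hv2 : v 0 ≤ 2 * n) (hv3 : p.g d v ≤ k) (hj : 0 ≤ j)
    (hj3 : j ≤ 3 * n) (hy : y 0 = j)
    (hA : p.A d j τ y ≤ d.ε / 36 * d.eta y / n - lam)
    (hAn : p.A d j τ y < n) :
    (|((v + (y + e0)) 1 : ℝ)| ≤ p.R * ((v + (y + e0)) 0 : ℤ) ∧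
      |((v + (y + e0)) 2 : ℝ)| ≤ p.R * ((v + (y + e0)) 0 : ℤ)) ∧
    (p.TA (Up 0) (sh (y + e0) τ') 0 v - d.ρ v ≤ B →
      spl (Lo j) τ τ' ∈ LOW.Bad p d (d.ε / (12 * n)) L (v + (y + e0)) ∧
        Cone p (v + (y + e0))) := by
  have hb := p.b_pos
  have hr := p.r_pos
  have hn' : (1 : ℝ) ≤ n := by exact_mod_cast hn
  have hv1' : (n : ℝ) ≤ 2 * v 0 := by exact_mod_cast hv1
  have hv2' : (v 0 : ℝ) ≤ 2 * n := by exact_mod_cast hv2
  have hy0 : (0 : ℝ) ≤ y 0 := by rw [hy]; exact_mod_cast hj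
  have hy3 : (y 0 : ℝ) ≤ 3 * n := by rw [hy]; exact_mod_cast hj3
  have z0 : (v + (y + e0)) 0 = v 0 + (y 0 + 1) := rfl
  have z0' : (((v + (y + e0)) 0 : ℤ) : ℝ) = v 0 + (y 0 + 1) := by rw [z0]; push_cast; ring
  have z1 : (((v + (y + e0)) 1 : ℤ) : ℝ) = v 1 + y 1 := by simp
  have z2 : (((v + (y + e0)) 2 : ℤ) : ℝ) = v 2 + y 2 := by simp
  have hyb : p.r / 2 * (|(y 1 : ℝ)| + |(y 2 : ℝ)|) ≤ n + p.b * (3 * n) := by
    have h1 := g.T_sub_ρ (spl (Lo j) τ fun _ => p.b.toNNReal) 0 y (by rw [hy]; exact hj)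
    rw [sub_zero] at h1
    have h2 : p.T (spl (Lo j) τ fun _ => p.b.toNNReal) 0 y - d.ρ y < n := hAn
    have h3 := mul_le_mul_of_nonneg_left hy3 hb.le
    linarith
  have hvb : p.r / 2 * (|(v 1 : ℝ)| + |(v 2 : ℝ)|) ≤ n + p.b * (2 * n) := by
    have h1 := g.g_ge v (by omega)
    have h3 := mul_le_mul_of_nonneg_left hv2' hb.le
    linarith
  have hr2 : 0 ≤ p.r / 2 := by linarith
  have m1 := mul_nonneg hr2 (abs_nonneg (y 1 : ℝ))
  have m2 := mul_nonneg hr2 (abs_nonneg (y 2 : ℝ))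
  have m3 := mul_nonneg hr2 (abs_nonneg (v 1 : ℝ))
  have m4 := mul_nonneg hr2 (abs_nonneg (v 2 : ℝ))
  have m5 := mul_le_mul_of_nonneg_left (abs_add_le (v 1 : ℝ) (y 1)) hr2
  have m6 := mul_le_mul_of_nonneg_left (abs_add_le (v 2 : ℝ) (y 2)) hr2
  have m7 := mul_nonneg hb.le (by linarith : (0 : ℝ) ≤ n)
  have cz1 : |((v + (y + e0)) 1 : ℝ)| ≤ p.R * ((v + (y + e0)) 0 : ℤ) := by
    rw [z1, z0']
    exact cone p (n := n) (by linarith) (by linarith)
  have cz2 : |((v + (y + e0)) 2 : ℝ)| ≤ p.R * ((v + (y + e0)) 0 : ℤ) := by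
    rw [z2, z0']
    exact cone p (n := n) (by linarith) (by linarith)
  have hz6 : (((v + (y + e0)) 0 : ℤ) : ℝ) ≤ 6 * n := by rw [z0']; linarith
  refine ⟨⟨cz1, cz2⟩, fun hB => ?_⟩
  have hzp : 0 < (v + (y + e0)) 0 := by rw [z0]; omega
  have G2z := g.G2 _ hzp cz1 cz2
  have G1z := g.G1 _ hzp.le
  have G2v := g.G2 v (by omega) (cone p (n := n) (by linarith) hv1')
    (cone p (n := n) (by linarith) hv1')
  have G1v := g.G1 v (by omega)
  have hv : d.ε * d.eta v ≤ 2 * n * k :=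
    G2v.trans (mul_le_mul hv2' hv3 G1v (by linarith))
  have hz : d.ε * d.eta (v + (y + e0)) ≤ 6 * n * p.g d (v + (y + e0)) :=
    G2z.trans (mul_le_mul_of_nonneg_right hz6 G1z)
  have hth : d.θ1 ^ 2 + d.θ2 ^ 2 ≤ 2 * p.R ^ 2 := by
    have a1 := pow_le_pow_left₀ (abs_nonneg _) g.θ1_le 2
    have a2 := pow_le_pow_left₀ (abs_nonneg _) g.θ2_le 2
    rw [sq_abs] at a1 a2
    linarith
  have key := arith g.ε_pos g.ε_le hn' g.ρ0_nonneg hl hA hB (eta_three d y v) hv hth hz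
  have e1 : p.TA (Up 0) (sh (y + e0) τ') 0 v =
      p.TA (Up (j + 1)) (spl (Lo j) τ τ') (y + e0) (v + (y + e0)) := by
    have e : (0 : ℤ) + (y + e0) 0 = j + 1 := by rw [← hy]; simp
    rw [p.TA_sh_Up, e, zero_add]
    exact p.TA_congr (fun e he => (spl_notMem _ _ (notMem_Lo_of_Up he)).symm) _ _
  have e2 : p.A d j τ y = p.TA (Lo j) (spl (Lo j) τ τ') 0 y - d.ρ y :=
    p.A_congr d (fun e he => (spl_mem _ _ he).symm) y
  have t1 := p.T_tri (spl (Lo j) τ τ') 0 (y + e0) (v + (y + e0))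
  have t2 := p.T_tri (spl (Lo j) τ τ') 0 y (y + e0)
  have t3 := (p.T_ed (spl (Lo j) τ τ') y).trans (p.w_le _)
  have t4 := p.T_le_TA (Lo j) (spl (Lo j) τ τ') 0 y
  have t5 := p.T_le_TA (Up (j + 1)) (spl (Lo j) τ τ') (y + e0) (v + (y + e0))
  have e3 : d.ρ (v + (y + e0)) = d.ρ v + (d.ρ y + d.ρ0) := by rw [d.ρ_add, d.ρ_add, d.ρ_e0]
  have e4 : p.g d (v + (y + e0)) = p.h (v + (y + e0)) - d.ρ (v + (y + e0)) := rfl
  constructor
  · show p.T (spl (Lo j) τ τ') 0 (v + (y + e0)) ≤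
      p.h (v + (y + e0)) - (d.ε / (12 * n) * d.eta (v + (y + e0)) + L)
    linarith
  have key2 := arith (gz := 2 * (d.ε / (12 * n) * d.eta (v + (y + e0)))) g.ε_pos g.ε_le hn'
    g.ρ0_nonneg hl hA hB (eta_three d y v) hv hth (le_of_eq (by field_simp; ring))
  have k3 : 2 * (d.ε / (12 * n) * d.eta (v + (y + e0))) ≤ p.g d (v + (y + e0)) := by
    have e : 2 * (d.ε / (12 * n) * d.eta (v + (y + e0))) =
        d.ε * d.eta (v + (y + e0)) / (6 * n) := by field_simp; ring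
    rw [e, div_le_iff₀ (by linarith)]
    linarith
  have k4 := p.h_le (v + (y + e0))
  have k5 := p.T_ge (spl (Lo j) τ τ') 0 (v + (y + e0))
  have k6 := T_sub_ρ' g (spl (Lo j) τ τ') 0 (v + (y + e0)) (by rw [sub_zero]; exact hzp.le)
  rw [sub_zero] at k5 k6
  rw [n1_eq hzp.le] at k4 k5
  have k7 := mul_le_mul_of_nonneg_right hρ (perp_nonneg (v + (y + e0)))
  have k8 : (0 : ℝ) ≤ (v + (y + e0)) 0 := by exact_mod_cast hzp.le
  have k9 := mul_nonneg (gap_pos p).le k8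
  unfold Cone
  linarith

/-- the lower tail bound with free constants -/
theorem lowK' (hS : St_SUM) {p : Par} {d : Dat} (g : p.Good d) {n : ℕ} {k B L lam s : ℝ}
    {S : Finset V} {j : ℤ} (hρ : 4 * (p.b - p.r) ≤ p.r) (hn : 1 ≤ n) (hkn : k ≤ n) (hL1 : 1 ≤ L) (hs : 0 ≤ s)
    (hl : B + p.b + k / 6 + p.R ^ 2 + L ≤ lam)
    (hSv : ∀ v ∈ S, (n : ℤ) ≤ 2 * v 0 ∧ v 0 ≤ 2 * n ∧ p.g d v ≤ k) (hj : 0 ≤ j) (hj3 : j ≤ 3 * n)
    (hV : ∀ z : V, Cone p z → n1 z ≤ 54 * n → p.Vr z ≤ s)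
    (hH : ∀ v ∈ S, 1 / 2 ≤ p.pr {τ | p.TA (Up 0) τ 0 v - d.ρ v ≤ B}) :
    (S.card : ℝ) * p.pr (p.Low d n j lam) * (d.ε * L) ≤ 9216 * s * n ^ 2 := by
  classical
  have hε := g.ε_pos
  have hn' : (1 : ℝ) ≤ n := by exact_mod_cast hn
  have ha : 0 < d.ε / (12 * n) := by positivity
  have hal : d.ε / (12 * n) ≤ L := by
    refine le_trans ?_ hL1
    rw [div_le_one (by positivity)]
    linarith [g.ε_le]
  obtain ⟨I, hI⟩ : ∃ I : Finset (ℤ × ℤ × ℤ), ∀ t, t ∈ I ↔ t ∈ idx n ⌈p.R * (6 * n)⌉ ∧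
      Cone p (pt t.1 t.2.1 t.2.2) :=
    ⟨(idx n ⌈p.R * (6 * n)⌉).filter fun t => Cone p (pt t.1 t.2.1 t.2.2),
      fun t => Finset.mem_filter⟩
  have hnice := cnt_nice p d (d.ε / (12 * n)) L I
  have hcond := p.cond (Lo j) hnice (cnt_nonneg p d _ _ _)
    (p.Low d n j lam) (c := (S.card : ℝ) / 2)
    (by positivity) (by
      rintro τ ⟨y, hy, hA, hAn⟩
      have hm : ∀ v : V, MeasurableSet {τ' : Cfg | sh (y + e0) τ' ∈
          {τ : Cfg | p.TA (Up 0) τ 0 v - d.ρ v ≤ B}} := fun v =>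
        meas_sh (y + e0) (measurableSet_le ((p.TA_meas _ _ _).sub_const _) measurable_const)
      have h1 := integral_mono ((Nice.sum S fun v _ => Nice.ind (hm v)).int p.P)
        ((hnice.comp (meas_spl_right (Lo j) τ)).int p.P) fun τ' => by
          refine le_trans ?_
            (le_cnt p d _ _ I (S.filter fun v => Cone p (v + (y + e0))) (y + e0) _ ?_)
          · rw [sum_filter]
            refine sum_le_sum fun v hv => ?_
            obtain ⟨h1, h2, h3⟩ := hSv v hv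
            have hd := (det' g (τ' := τ') hρ (by linarith) hl hn hkn h1 h2 h3 hj hj3 hy hA hAn).2
            by_cases hτ : τ' ∈ {τ' : Cfg | sh (y + e0) τ' ∈
                {τ : Cfg | p.TA (Up 0) τ 0 v - d.ρ v ≤ B}}
            · rw [Set.indicator_of_mem hτ, if_pos (hd hτ).2, Set.indicator_of_mem (hd hτ).1]
            · rw [Set.indicator_of_notMem hτ]
              split_ifs
              · exact Set.indicator_nonneg (fun _ _ => zero_le_one) _
              · exact le_rfl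
          · intro v hv
            obtain ⟨hv, hco⟩ := mem_filter.1 hv
            obtain ⟨h1, h2, h3⟩ := hSv v hv
            have hd := (det' g (τ' := τ') hρ (by linarith) hl hn hkn h1 h2 h3 hj hj3 hy hA hAn).1
            have z0 : (v + (y + e0)) 0 = v 0 + (y 0 + 1) := rfl
            have hz : 1 ≤ (v + (y + e0)) 0 ∧ (v + (y + e0)) 0 ≤ 6 * (n : ℤ) := by
              rw [z0]
              omega
            have hz6 : (((v + (y + e0)) 0 : ℤ) : ℝ) ≤ 6 * n := by exact_mod_cast hz.2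
            have hR6 := mul_le_mul_of_nonneg_left hz6 p.R_pos.le
            exact (hI _).2 ⟨Finset.mem_product.2 ⟨Finset.mem_Icc.2 hz, Finset.mem_product.2
              ⟨abs_int (hd.1.trans hR6) (Int.le_ceil _),
                abs_int (hd.2.trans hR6) (Int.le_ceil _)⟩⟩, by rwa [pt_self]⟩
      refine le_trans ?_ h1
      rw [integral_finsetSum _ fun v _ => (Nice.ind (hm v)).int _]
      have h2 : ∀ v ∈ S, (1 / 2 : ℝ) ≤ ∫ τ', {τ' : Cfg | sh (y + e0) τ' ∈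
          {τ : Cfg | p.TA (Up 0) τ 0 v - d.ρ v ≤ B}}.indicator
            (fun _ => (1 : ℝ)) τ' ∂p.P := by
        intro v hv
        rw [p.int_ind (hm v), p.pr_sh]
        exact hH v hv
      refine le_trans (le_of_eq ?_) (sum_le_sum h2)
      rw [sum_const, nsmul_eq_mul]
      ring)
  have hup := hcond.trans (int_cnt hS p d ha hal hs n _ I (fun t ht => ((hI t).1 ht).1)
    fun t ht => by
      obtain ⟨h1, h2⟩ := (hI t).1 ht
      have h4 := Finset.mem_Icc.1 (Finset.mem_product.1 h1).1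
      have h5 : ((t.1 : ℤ) : ℝ) ≤ 6 * n := by exact_mod_cast h4.2
      refine hV _ h2 ((h2.n1_le hρ (by rw [pt_zero]; omega)).trans ?_)
      rw [pt_zero]
      linarith)
  have e : 6 * (n : ℝ) * (s * (64 / (d.ε / (12 * n) * L))) = 4608 * s * n ^ 2 / (d.ε * L) := by
    field_simp
    ring
  have hεL : 0 < d.ε * L := by positivity
  rw [e, le_div_iff₀ hεL] at hup
  linarith

end LK

end Pool.Agent.Lib.V3K
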