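import Pool.Agent.Lib.V3K.Step
import Pool.Agent.Lib.V3K.Final

/-! Assembly: the variance on the narrow cone grows at least like the root of the logarithm. -/

namespace Pool.Agent.Lib.V3K

open Filter Pool.Agent.Lib.V3

/-- the blocks that are used unchanged -/
structure Kit : Prop where
  geo : St_GEO
  sum : St_SUM
  win : St_WIN
  mart : St_MART
  fast : St_FAST
  sep : St_SEP2
  start : St_START2
  chain : St_CHAIN2

theorem mainK (H : Kit) {p : Par} {κ : ℝ} {n₀ : ℕ} (κ0 : 0 < κ) (κ1 : κ ≤ 1) (hH : Heavy p κ n₀)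
    (hρ : 4 * (p.b - p.r) ≤ p.r) (hlo : 16 * (p.lo - p.r) ≤ (p.hi - p.r) * κ) :
    ∃ c Γ : ℝ, 0 ≤ c ∧ 0 ≤ Γ ∧ ∀ (σ : ℝ) (h : 1 ≤ σ) (w : ℕ),
      VarK (p.sig σ h) κ (Γ * w ^ 4) → (w : ℝ) ≤ Real.exp (c * σ ^ 4) := by
  obtain ⟨d, g⟩ := H.geo p
  have hr := p.r_pos
  have hb := p.b_pos
  have hε := g.ε_pos
  have hc1 := p.c1_pos
  have a0 := (HK.C1_pos p).le
  obtain ⟨L, L1, L2⟩ : ∃ L : ℝ, 1 ≤ L ∧ 368640000 ≤ d.ε * p.c1 ^ 2 * L := by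
    refine ⟨max 1 (368640000 / (d.ε * p.c1 ^ 2)), le_max_left _ _, ?_⟩
    rw [← div_le_iff₀' (by positivity)]
    exact le_max_right _ _
  have a1 : 0 ≤ HK.C1 p + 1 + p.R ^ 2 + p.b + L := by positivity
  obtain ⟨B, β₀, cs, B0, β0, cs0, hS⟩ := stepK H.win H.mart g κ0 κ1 hH hρ a1
  obtain ⟨C, w₀, C0, hT⟩ := H.start p d g
  obtain ⟨z, δ, δ0, z0, hz⟩ := gainK g κ0 hH hρ hlo
  obtain ⟨cf, cf0, hF⟩ := finalK H.fast H.sep g (C + 5 * B) δ0 z0 hz a0 a1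
  obtain ⟨Y, hY⟩ : ∃ Y : ℝ, Y = 2 + 2 / p.r * (2 * p.b + 1) := ⟨_, rfl⟩
  have Y0 : 0 ≤ Y := by rw [hY]; positivity
  obtain ⟨c₀, hc₀⟩ : ∃ c₀ : ℝ, c₀ = w₀ + cs + ((C + 5 * B) / β₀) ^ 2 := ⟨_, rfl⟩
  have c00 : 0 ≤ c₀ := by rw [hc₀]; positivity
  refine ⟨c₀ + cf + 2, 3 * (54 + 3 * (p.b / p.r) * Y), by positivity, by positivity,
    fun σ h w hV => ?_⟩
  have s2 : 1 ≤ σ ^ 2 := one_le_pow₀ h
  have s4 : 1 ≤ σ ^ 4 := one_le_pow₀ h
  have q1 : 0 ≤ cf * σ ^ 4 := by positivity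
  have q2 : 0 ≤ c₀ * σ ^ 4 := by positivity
  by_cases hw : (w : ℝ) ≤ c₀ * σ ^ 4
  · linarith [Real.add_one_le_exp ((c₀ + cf + 2) * σ ^ 4)]
  rw [not_le] at hw
  have w0 : (0 : ℝ) < w := q2.trans_lt hw
  have w1 : 1 ≤ w := by exact_mod_cast w0
  have t1 : 0 ≤ (w₀ : ℝ) * σ ^ 4 := by positivity
  have t2 : 0 ≤ cs * σ ^ 4 := by positivity
  have t3 : 0 ≤ ((C + 5 * B) / β₀) ^ 2 * σ ^ 4 := by positivity
  have t4 : (w₀ : ℝ) ≤ w₀ * σ ^ 4 := le_mul_of_one_le_right (Nat.cast_nonneg _) s4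
  rw [hc₀, add_mul, add_mul] at hw
  have hw₀ : w₀ ≤ w := by exact_mod_cast (show (w₀ : ℝ) ≤ w by linarith)
  set N := 3 * w ^ 4 with hN
  have N0 : (0 : ℝ) ≤ N := Nat.cast_nonneg _
  have eN : 3 * (54 + 3 * (p.b / p.r) * Y) * (w : ℝ) ^ 4 = (54 + 3 * (p.b / p.r) * Y) * N := by
    rw [hN]; push_cast; ring
  rw [eN] at hV
  have q3 : 0 ≤ 3 * (p.b / p.r) * Y * N := by positivity
  have g' := good_sig g σ h
  have hHalf : (p.sig σ h).Half2 d (HK.C1 p) (Y * N) :=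
    halfK g' κ0.le κ1 (hV.mono (show 3 * (p.b / p.r) * (Y * N) ≤ _ by linarith))
  have hLow : LowBK (p.sig σ h) κ d (HK.C1 p + 1 + p.R ^ 2 + p.b + L) N :=
    lowK2 H.sum g' κ0.le κ1 hρ a0 L1 L2 (hV.mono (by linarith)) (hY ▸ hHalf)
  obtain ⟨n, n1', n2, hP⟩ := hT σ h w hw₀
  have sw : 0 < √(w : ℝ) := Real.sqrt_pos.2 w0
  have hwN : w ≤ w ^ 4 := Nat.le_self_pow (by norm_num) w
  have f0 : ∀ n : ℕ, 0 ≤ 5 * B * σ ^ 2 / √(n : ℝ) := fun n => by positivity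
  obtain ⟨m, m1, m2, hm⟩ := H.chain ((p.sig σ h).PP d) (fun n => 5 * B * σ ^ 2 / √(n : ℝ))
    (fun n => B * σ ^ 2 / √(n : ℝ)) (C / √w) β₀ w N w1 (by positivity) f0
    (fun n => by positivity) (Par.PP_mono d)
    (fun n β k1 k2 k3 k4 k5 => hS σ h N (hV.mono (by linarith)) hLow n β
      (le_trans (by linarith) (show (w : ℝ) ≤ n by exact_mod_cast k1)) k2 k3 k4 k5)
    (fun n n' k1 k2 => by
      have a1 : (0 : ℝ) < n' := by exact_mod_cast k1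
      have a2 : (3 : ℝ) * n' ≤ 2 * n := by exact_mod_cast k2
      have a3 : 0 < √(n' : ℝ) := Real.sqrt_pos.2 a1
      have a4 : 0 < √(n : ℝ) := Real.sqrt_pos.2 (by linarith)
      have a5 : 6 * √(n' : ℝ) ≤ 5 * √(n : ℝ) := by
        refine le_of_sq_le_sq ?_ (by positivity)
        rw [mul_pow, mul_pow, Real.sq_sqrt a1.le, Real.sq_sqrt (by linarith)]
        linarith
      rw [← add_div, div_le_div_iff₀ a4 a3]
      nlinarith [mul_le_mul_of_nonneg_left a5 (show 0 ≤ B * σ ^ 2 by positivity)])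
    (fun n k1 => by
      have a1 : √(w : ℝ) ≤ √(n : ℝ) := Real.sqrt_le_sqrt (by exact_mod_cast k1)
      have a2 : 5 * B * σ ^ 2 / √(n : ℝ) ≤ 5 * B * σ ^ 2 / √(w : ℝ) :=
        div_le_div_of_nonneg_left (by positivity) sw a1
      have a3 : (C + 5 * B) / β₀ * σ ^ 2 ≤ √(w : ℝ) := by
        refine Real.le_sqrt_of_sq_le ?_
        rw [mul_pow, ← pow_mul]
        linarith
      rw [div_mul_eq_mul_div, div_le_iff₀ β0] at a3
      have a4 : C / √(w : ℝ) + 5 * B * σ ^ 2 / √(w : ℝ) ≤ β₀ := by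
        rw [← add_div, div_le_iff₀ sw]
        nlinarith [mul_le_mul_of_nonneg_left s2 C0]
      linarith)
    n (hwN.trans n1') n2
    (Par.PP_mono d n _ _ (by positivity) (le_add_of_nonneg_right (f0 n)) hP)
  have m0 : (0 : ℝ) < m := by exact_mod_cast (by omega : 0 < m)
  have mN : m ≤ N := by omega
  have mN' : (m : ℝ) ≤ N := by exact_mod_cast mN
  have sm : 0 < √(m : ℝ) := Real.sqrt_pos.2 m0
  have hfin := hF σ h m
    (fun v hv hv' => hHalf v hv (hv'.trans (hY ▸ mul_le_mul_of_nonneg_left mN' Y0)))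
    (hLow.low2 κ1 mN) (Par.PP_mono d m _ _ (add_nonneg (by positivity) (f0 m)) (by
      have a1 : √(m : ℝ) ≤ √(w : ℝ) := Real.sqrt_le_sqrt (by exact_mod_cast m2.le)
      have a2 : C / √(w : ℝ) ≤ C * σ ^ 2 / √(m : ℝ) :=
        (div_le_div_of_nonneg_left C0 sm a1).trans
          (div_le_div_of_nonneg_right (le_mul_of_one_le_right C0 s2) sm.le)
      rw [add_mul, add_div]
      linarith) hm)
  have e1 : (w : ℝ) ≤ 3 * m := by exact_mod_cast m1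
  have e2 : (3 : ℝ) ≤ Real.exp ((c₀ + 2) * σ ^ 4) := by
    linarith [Real.add_one_le_exp ((c₀ + 2) * σ ^ 4)]
  rw [show (c₀ + cf + 2) * σ ^ 4 = (c₀ + 2) * σ ^ 4 + cf * σ ^ 4 by ring, Real.exp_add]
  exact e1.trans (mul_le_mul e2 hfin m0.le (Real.exp_pos _).le)

theorem rateK (H : Kit) {p : Par} {κ : ℝ} {n₀ : ℕ} (κ0 : 0 < κ) (κ1 : κ ≤ 1) (hH : Heavy p κ n₀)
    (hρ : 4 * (p.b - p.r) ≤ p.r) (hlo : 16 * (p.lo - p.r) ≤ (p.hi - p.r) * κ) :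
    ∃ c : ℝ, 0 < c ∧ ∀ᶠ N : ℕ in atTop, ∃ v : V, Cone p v ∧ n1 v ≤ N ∧
      c * √(Real.log N) ≤ p.Vr v := by
  obtain ⟨c, Γ, c0, Γ0, h⟩ := mainK H κ0 κ1 hH hρ hlo
  obtain ⟨a, a0, a1⟩ : ∃ a : ℝ, 0 < a ∧ c * a ^ 2 ≤ 1 / 8 := by
    refine ⟨1 / (8 * c + 1), by positivity, ?_⟩
    rw [div_pow, one_pow, mul_one_div, div_le_div_iff₀ (by positivity) (by norm_num)]
    nlinarith [sq_nonneg c]
  refine ⟨κ ^ 2 * a, by positivity, ?_⟩
  have t1 : Tendsto (fun N : ℕ => Real.log N) atTop atTop :=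
    Real.tendsto_log_atTop.comp tendsto_natCast_atTop_atTop
  filter_upwards [t1.eventually_ge_atTop ((1 / a) ^ 2),
    (tendsto_natCast_atTop_atTop (R := ℝ)).eventually_ge_atTop ((16 * (Γ + 1)) ^ 2),
    eventually_ge_atTop 1] with N h1 h2 h3
  by_contra hc
  have N1 : (1 : ℝ) ≤ N := by exact_mod_cast h3
  have l0 : 0 ≤ Real.log N := Real.log_nonneg N1
  have s1 : 1 ≤ a * √(Real.log N) := by
    rw [← div_le_iff₀' a0]
    exact Real.le_sqrt_of_sq_le h1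
  have s2 : 1 ≤ √(a * √(Real.log N)) := Real.one_le_sqrt.2 s1
  have s3 : √(a * √(Real.log N)) ^ 2 = a * √(Real.log N) := Real.sq_sqrt (by linarith)
  have s4 : √(a * √(Real.log N)) ^ 4 = a ^ 2 * Real.log N := by
    rw [show 4 = 2 * 2 by rfl, pow_mul, s3, mul_pow, Real.sq_sqrt l0]
  set M := ⌊(N : ℝ) / (Γ + 1)⌋₊ with hM
  set w := M.sqrt.sqrt with hw
  have w1 : w ^ 4 ≤ M := by
    have b1 := Nat.sqrt_le' M
    have b2 := Nat.pow_le_pow_left (Nat.sqrt_le' M.sqrt) 2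
    rw [← pow_mul] at b2
    exact b2.trans b1
  have w2 : M + 1 ≤ (w + 1) ^ 4 := by
    have b1 := Nat.lt_succ_sqrt' M
    have b2 := Nat.pow_le_pow_left (Nat.succ_le_of_lt (Nat.lt_succ_sqrt' M.sqrt)) 2
    rw [← pow_mul] at b2
    exact (Nat.succ_le_of_lt b1).trans b2
  have w3 : Γ * (w : ℝ) ^ 4 ≤ N := by
    have b1 : (w : ℝ) ^ 4 ≤ M := by exact_mod_cast w1
    have b2 : (M : ℝ) ≤ N / (Γ + 1) := Nat.floor_le (by positivity)
    have b3 := (le_div_iff₀ (by positivity)).1 (b1.trans b2)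
    nlinarith [pow_nonneg (Nat.cast_nonneg (α := ℝ) w) 4]
  have w4 : (N : ℝ) < (w + 1) ^ 4 * (Γ + 1) := by
    have b1 : (M : ℝ) + 1 ≤ (w + 1) ^ 4 := by exact_mod_cast w2
    exact (div_lt_iff₀ (by positivity)).1 ((Nat.lt_floor_add_one _).trans_le b1)
  have k := h _ s2 w fun v hv hn => by
    refine le_of_not_gt fun hlt => hc ⟨v, hv, hn.trans w3, le_of_lt ?_⟩
    have e : (κ * (p.sig _ s2).σ) ^ 2 = κ ^ 2 * a * √(Real.log N) := by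
      show (κ * √(a * √(Real.log N))) ^ 2 = _
      rw [mul_pow, s3, mul_assoc]
    rw [e] at hlt
    exact hlt
  rw [s4] at k
  obtain ⟨u, hu⟩ : ∃ u : ℝ, u = Real.exp (Real.log N / 8) := ⟨_, rfl⟩
  have u1 : 1 ≤ u := hu ▸ Real.one_le_exp (by positivity)
  have u8 : (u ^ 4) ^ 2 = N := by
    rw [← pow_mul, hu, ← Real.exp_nat_mul]
    push_cast
    rw [mul_div_cancel₀ _ (by norm_num), Real.exp_log (by linarith)]
  have k1 : (w : ℝ) ≤ u := by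
    refine k.trans (hu ▸ Real.exp_le_exp.2 ?_)
    nlinarith [mul_le_mul_of_nonneg_right a1 l0]
  have k2 : ((w : ℝ) + 1) ^ 4 ≤ (2 * u) ^ 4 := pow_le_pow_left₀ (by positivity) (by linarith) 4
  have k3 : 16 * (Γ + 1) ≤ u ^ 4 := le_of_sq_le_sq (u8 ▸ h2) (by positivity)
  have k4 := mul_le_mul_of_nonneg_right k2 (show 0 ≤ Γ + 1 by positivity)
  have k5 := mul_le_mul_of_nonneg_left k3 (show 0 ≤ u ^ 4 by positivity)
  nlinarith

end Pool.Agent.Lib.V3K
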