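import Pool.Agent.Lib.V3K.Out

/-! Laws with nearly constant weights: the rate near the axis, and bounded variance on the
diagonal cone when the atom at the bottom of the support is large. -/

namespace Pool.Agent.Lib.V3K

open MeasureTheory ProbabilityTheory Filter Topology Pool.Agent.Lib.V3
open Pool.Agent.Lib.MP_eba68f_pr (lattice passage wN bern qq PP)
open scoped NNReal ENNReal

theorem near_rate (q : ℝ≥0∞) (hq : q < 1) : ∃ η : ℝ≥0, 0 < η ∧ ∀ r b : ℝ≥0, 0 < r →
    b ≤ r * (1 + η) → ∀ (F : Measure ℝ≥0) [IsProbabilityMeasure F], F (Set.Icc r b) = 1 →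
    (∀ a, r < a → 0 < F (Set.Iic a)) → F {r} < q →
    ∃ c : ℝ, 0 < c ∧ ∀ᶠ N : ℕ in atTop, ∃ v : Fin 3 → ℤ,
      (r : ℝ) * (|(v 1 : ℝ)| + |(v 2 : ℝ)|) ≤ 30 * ((b : ℝ) - r) * v 0 ∧ n1 v ≤ N ∧
      ENNReal.ofReal (c * √(Real.log N)) ≤ evariance (fun τ => passage τ 0 v)
        (Measure.infinitePi fun _ : (lattice 3).edgeSet => F) := by
  have q1 : q.toReal < 1 := by
    have := (ENNReal.toReal_lt_toReal hq.ne_top ENNReal.one_ne_top).2 hq
    simpa using this
  obtain ⟨δ, hδ⟩ : ∃ δ : ℝ, δ = 1 - q.toReal := ⟨_, rfl⟩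
  have δ0 : 0 < δ := by linarith
  have δ1 : δ ≤ 1 := by linarith [ENNReal.toReal_nonneg (a := q)]
  have t1 : 1 ≤ 104 / δ := by rw [le_div_iff₀ δ0]; linarith
  have L0 := Real.log_nonneg t1
  obtain ⟨η, hη⟩ : ∃ η : ℝ, η = δ / (104 * (Real.log (104 / δ) + 1)) := ⟨_, rfl⟩
  have η0 : 0 < η := by rw [hη]; positivity
  have η2 : η * (104 * (Real.log (104 / δ) + 1)) = δ := by rw [hη]; field_simp
  have η1 : η ≤ 1 / 4 := by nlinarith [mul_nonneg η0.le L0]
  lift η to ℝ≥0 using η0.le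
  refine ⟨η, by exact_mod_cast η0, fun r b hr hb F _ hF ha hs => ?_⟩
  obtain ⟨a, hra, hab, hc⟩ := OUT.level F r b hF q hs hq.le
  have hra' : (r : ℝ) < a := hra
  have hr' : (0 : ℝ) < r := hr
  have hb' : (b : ℝ) ≤ r * (1 + η) := by exact_mod_cast hb
  have elo : ((r + (a - r) * η / 16 : ℝ≥0) : ℝ) = r + (a - r) * η / 16 := by
    push_cast [NNReal.coe_sub hra.le]; rfl
  have hp : 0 < ((a : ℝ) - r) * η := mul_pos (by linarith) η0
  have hlo : r < r + (a - r) * η / 16 := by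
    rw [← NNReal.coe_lt_coe, elo]; linarith
  let p : Par :=
    { F := F
      prob := inferInstance
      r := r
      b := b
      lo := r + (a - r) * η / 16
      hi := a
      σ := 1
      r_pos := hr
      r_le_lo := hlo.le
      lo_lt := by rw [elo]; nlinarith
      hi_le := hab
      q_pos := ENNReal.toReal_pos (ha _ hlo).ne' (measure_ne_top _ _)
      one_le := le_rfl }
  have hρ : 4 * (p.b - p.r) ≤ p.r := by
    show 4 * ((b : ℝ) - r) ≤ r
    nlinarith
  have h1 : ((b : ℝ) - r) / r ≤ η := by rw [div_le_iff₀ hr']; linarith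
  have h2 : F.real (Set.Iic a) ≤ q.toReal := ENNReal.toReal_mono hq.ne_top hc.le
  obtain ⟨n₀, -, hH⟩ := heavy_of p (κ := η) η0.le t1 hρ (by
    show 13 / (104 / δ) + (η + 12 * (((b : ℝ) - r) / r)) * Real.log (104 / δ) <
      (1 - F.real (Set.Iic a)) / 4
    have h3 : 13 / (104 / δ) = δ / 8 := by field_simp; norm_num
    rw [h3]
    nlinarith [mul_le_mul_of_nonneg_right h1 L0])
  exact rate_out η0 (by linarith) hH hρ (by
    show 16 * (((r + (a - r) * η / 16 : ℝ≥0) : ℝ) - r) ≤ ((a : ℝ) - r) * η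
    rw [elo]; linarith) hF

namespace EMB

lemma pas_mono {τ σ : (lattice 3).edgeSet → ℝ≥0} {c d : ℝ≥0} (h : ∀ e, c * τ e ≤ d * σ e)
    (u v : W3) : c * passage τ u v ≤ d * passage σ u v := by
  unfold passage
  rw [Real.mul_iInf_of_nonneg c.coe_nonneg, Real.mul_iInf_of_nonneg d.coe_nonneg]
  refine ciInf_mono ⟨0, ?_⟩ fun p => ?_
  · rintro _ ⟨p, rfl⟩
    refine mul_nonneg c.coe_nonneg (List.sum_nonneg fun x hx => ?_)
    obtain ⟨a, -, rfl⟩ := List.mem_map.1 hx
    exact NNReal.coe_nonneg _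
  · rw [← List.sum_map_mul_left, ← List.sum_map_mul_left]
    exact List.sum_le_sum fun a _ => by exact_mod_cast h _

lemma sandwich {r : ℝ≥0} {τ : (lattice 3).edgeSet → ℝ≥0} {ω : Sym2 W3 → Bool}
    (h : ∀ e : (lattice 3).edgeSet, r ≤ τ e ∧ τ e ≤ r * wN (ω e)) (v : W3) :
    0 ≤ passage τ 0 v - r * (sm v - sm 0) ∧
      passage τ 0 v - r * (sm v - sm 0) ≤ r * ex 0 v ω := by
  have h1 := pas_mono (τ := Ph3 fun _ => false) (σ := τ) (c := r) (d := 1)
    (fun e => by simpa [Ph3, wN] using (h e).1) 0 v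
  have h2 := pas_mono (τ := τ) (σ := Ph3 ω) (c := 1) (d := r)
    (fun e => by simpa [Ph3] using (h e).2) 0 v
  have h3 := mul_nonneg r.coe_nonneg (ex_nonneg 0 v fun _ => false)
  unfold ex at h3 ⊢
  rw [NNReal.coe_one] at h1 h2
  constructor <;> linarith

/-- an edge is declared closed if its weight is not the atom, or if a coin says so -/
noncomputable def cl (r : ℝ≥0) (x : ℝ≥0 × Bool) : Bool := if x.1 = r then x.2 else true

lemma meas_cl (r : ℝ≥0) : Measurable (cl r) :=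
  Measurable.ite (measurable_fst (measurableSet_singleton r)) measurable_snd measurable_const

lemma bool_ext {μ ν : Measure Bool} [IsProbabilityMeasure μ] [IsProbabilityMeasure ν]
    (h : μ {false} = ν {false}) : μ = ν := by
  refine Measure.ext_of_singleton fun b => ?_
  cases b
  · exact h
  · have e : ({true} : Set Bool) = {false}ᶜ := by ext x; cases x <;> simp
    rw [e, prob_compl_eq_one_sub (measurableSet_singleton _),
      prob_compl_eq_one_sub (measurableSet_singleton _), h]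

lemma coin (F : Measure ℝ≥0) [IsProbabilityMeasure F] (r : ℝ≥0) (h : 63 / 64 ≤ F {r}) :
    ∃ ν : Measure Bool, IsProbabilityMeasure ν ∧ (F.prod ν).map (cl r) = bern := by
  have h0 : F {r} ≠ 0 := fun h0 => by rw [h0] at h; simp at h
  have h1 : F {r} ≠ ⊤ := measure_ne_top _ _
  have h2 : 63 / 64 / F {r} ≤ 1 := ENNReal.div_le_of_le_mul (by simpa using h)
  have hν : IsProbabilityMeasure ((1 - 63 / 64 / F {r}) • Measure.dirac true +
      (63 / 64 / F {r}) • Measure.dirac false) := ⟨by simp [tsub_add_cancel_of_le h2]⟩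
  refine ⟨_, hν, ?_⟩
  have := Measure.isProbabilityMeasure_map (μ := F.prod ((1 - 63 / 64 / F {r}) •
    Measure.dirac true + (63 / 64 / F {r}) • Measure.dirac false)) (meas_cl r).aemeasurable
  refine bool_ext ?_
  have e : cl r ⁻¹' {false} = {r} ×ˢ {false} := by
    ext ⟨x, y⟩
    by_cases hx : x = r <;> simp [cl, hx]
  have e2 : ENNReal.ofReal (1 - qq) = 63 / 64 := by
    rw [qq, show (1 - 1 / 64 : ℝ) = 63 / 64 by norm_num, ENNReal.ofReal_div_of_pos (by norm_num)]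
    simp
  rw [Measure.map_apply (meas_cl r) (measurableSet_singleton _), e, Measure.prod_prod, bern, e2]
  simp [ENNReal.mul_div_cancel h0 h1]

theorem cone_gen (r b : ℝ≥0) (hb : b ≤ r * (1 + 1 / 100000)) (F : Measure ℝ≥0)
    [IsProbabilityMeasure F] (hF : F (Set.Icc r b) = 1) (h : 63 / 64 ≤ F {r}) :
    ∃ C : ℝ≥0, ∀ v : Fin 3 → ℤ, v 0 ≤ v 1 + v 2 → v 1 ≤ v 0 + v 2 → v 2 ≤ v 0 + v 1 →
      evariance (fun τ => passage τ 0 v)
        (Measure.infinitePi fun _ : (lattice 3).edgeSet => F) ≤ C := by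
  obtain ⟨C, hC⟩ := bd_cone
  obtain ⟨ν, hν, hm⟩ := coin F r h
  refine ⟨(r ^ 2 * C).toNNReal, fun v h0 h1 h2 => ?_⟩
  obtain ⟨Q, hQ⟩ : ∃ Q, Q = Measure.infinitePi fun _ : Sym2 W3 => F.prod ν := ⟨_, rfl⟩
  have : IsProbabilityMeasure Q := by rw [hQ]; infer_instance
  let π₁ : (Sym2 W3 → ℝ≥0 × Bool) → (lattice 3).edgeSet → ℝ≥0 := fun x e => (x e).1
  let π₂ : (Sym2 W3 → ℝ≥0 × Bool) → Sym2 W3 → Bool := fun x e => cl r (x e)
  have m1 : Measurable π₁ :=
    measurable_pi_lambda _ fun _ => measurable_fst.comp (measurable_pi_apply _)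
  have m2 : Measurable π₂ :=
    measurable_pi_lambda _ fun _ => (meas_cl r).comp (measurable_pi_apply _)
  have e2 : Q.map π₂ = PP (Sym2 W3) := by
    rw [hQ, PP, ← hm]
    exact Measure.infinitePi_map_pi _ fun _ => meas_cl r
  have e1 : Q.map π₁ = Measure.infinitePi fun _ : (lattice 3).edgeSet => F := by
    have a1 := Measure.map_infinitePi_infinitePi_of_inj (P := fun _ : Sym2 W3 => F.prod ν)
      (f := fun e : (lattice 3).edgeSet => (e : Sym2 W3)) Subtype.val_injective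
    have a2 := Measure.infinitePi_map_pi (fun _ : (lattice 3).edgeSet => F.prod ν)
      (f := fun _ => Prod.fst) fun _ => measurable_fst
    simp only [Measure.map_fst_prod, measure_univ, one_smul] at a2
    rw [← a2, ← a1, Measure.map_map, hQ]
    · rfl
    · exact measurable_pi_lambda _ fun e => measurable_fst.comp (measurable_pi_apply _)
    · fun_prop
  have a0 : ∀ᵐ x ∂F.prod ν, r ≤ x.1 ∧ x.1 ≤ r * wN (cl r x) := by
    have a1 : ∀ᵐ t ∂F, t ∈ Set.Icc r b :=
      (prob_compl_eq_zero_iff measurableSet_Icc).2 hF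
    filter_upwards [Measure.quasiMeasurePreserving_fst.ae a1] with x hx
    refine ⟨hx.1, ?_⟩
    by_cases e : x.1 = r
    · rw [e]
      refine le_mul_of_one_le_right' ?_
      unfold wN
      split_ifs
      · exact le_self_add
      · exact le_rfl
    · simpa [cl, e, wN] using hx.2.trans hb
  have a1 : ∀ᵐ x ∂Q, ∀ e : (lattice 3).edgeSet, r ≤ π₁ x e ∧ π₁ x e ≤ r * wN (π₂ x e) := by
    refine ae_all_iff.2 fun e => ?_
    rw [hQ]
    exact (measurePreserving_eval_infinitePi (fun _ : Sym2 W3 => F.prod ν)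
      (e : Sym2 W3)).quasiMeasurePreserving.ae a0
  have hp := meas_passage3 0 v
  obtain ⟨mx, D, hD⟩ := nice_ex 0 v
  have hY : MemLp (fun x => passage (π₁ x) 0 v - r * (sm v - sm 0)) 2 Q := by
    refine MemLp.of_bound ((hp.comp m1).sub measurable_const).aestronglyMeasurable (r * D) ?_
    filter_upwards [a1] with x hx
    obtain ⟨b1, b2⟩ := sandwich hx v
    rw [Real.norm_of_nonneg b1]
    exact b2.trans (mul_le_mul_of_nonneg_left ((le_abs_self _).trans (hD _)) r.coe_nonneg)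
  have hL : MemLp (fun τ => passage τ 0 v) 2 (Q.map π₁) := by
    rw [memLp_map_measure_iff hp.aestronglyMeasurable m1.aemeasurable]
    refine (hY.add (memLp_const ((r : ℝ) * (sm v - sm 0)))).ae_eq (ae_of_all _ fun x => ?_)
    simp
  rw [← e1, ← ofReal_variance hL, variance_map hp.aemeasurable m1.aemeasurable]
  refine ENNReal.ofReal_le_ofReal ?_
  have h3 : Var[(fun τ => passage τ 0 v) ∘ π₁; Q] =
      Var[fun x => passage (π₁ x) 0 v - r * (sm v - sm 0); Q] :=
    (variance_sub_const (hp.comp m1).aestronglyMeasurable _).symm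
  have h4 := hC v h0 h1 h2
  unfold Bd at h4
  rw [← e2, integral_map m2.aemeasurable (mx.pow_const 2).aestronglyMeasurable] at h4
  have h5 : Integrable (fun x => ex 0 v (π₂ x) ^ 2) Q := by
    have := (nice_ex 0 v).sq.integrable
    rw [← e2] at this
    exact this.comp_measurable m2
  rw [h3]
  refine (variance_le_expectation_sq hY.1).trans (le_trans ?_
    (mul_le_mul_of_nonneg_left h4 (sq_nonneg _)))
  rw [← integral_const_mul]
  refine integral_mono_ae hY.integrable_sq (h5.const_mul _) ?_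
  filter_upwards [a1] with x hx
  obtain ⟨b1, b2⟩ := sandwich hx v
  rw [← mul_pow]
  exact pow_le_pow_left₀ b1 b2 2

end EMB

theorem direction (q : ℝ≥0∞) (hq : q < 1) : ∃ η : ℝ≥0, 0 < η ∧ ∀ r b : ℝ≥0, 0 < r →
    b ≤ r * (1 + η) → ∀ (F : Measure ℝ≥0) [IsProbabilityMeasure F], F (Set.Icc r b) = 1 →
    63 / 64 ≤ F {r} → F {r} < q →
    (∃ C : ℝ≥0, ∀ v : Fin 3 → ℤ, v 0 ≤ v 1 + v 2 → v 1 ≤ v 0 + v 2 → v 2 ≤ v 0 + v 1 →
      evariance (fun τ => passage τ 0 v)
        (Measure.infinitePi fun _ : (lattice 3).edgeSet => F) ≤ C) ∧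
    ∃ c : ℝ, 0 < c ∧ ∀ᶠ N : ℕ in atTop, ∃ v : Fin 3 → ℤ,
      (r : ℝ) * (|(v 1 : ℝ)| + |(v 2 : ℝ)|) ≤ 30 * ((b : ℝ) - (r : ℝ)) * (v 0 : ℝ) ∧ v 0 ≤ N ∧
      ENNReal.ofReal (c * √(Real.log N)) ≤ evariance (fun τ => passage τ 0 v)
        (Measure.infinitePi fun _ : (lattice 3).edgeSet => F) := by
  obtain ⟨η, η0, H⟩ := near_rate q hq
  refine ⟨min η (1 / 100000), lt_min η0 (by norm_num), fun r b hr hb F _ hF h1 h2 => ⟨?_, ?_⟩⟩
  · exact EMB.cone_gen r b (hb.trans (by gcongr; exact min_le_right _ _)) F hF h1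
  · obtain ⟨c, c0, h⟩ := H r b hr (hb.trans (by gcongr; exact min_le_left _ _)) F hF
      (fun a ha => (lt_of_lt_of_le (by simp) h1).trans_le
        (measure_mono (Set.singleton_subset_iff.2 ha.le))) h2
    refine ⟨c, c0, h.mono fun N ⟨v, a1, a2, a3⟩ => ⟨v, a1, ?_, a3⟩⟩
    have a4 : (v 0 : ℝ) ≤ N := by
      unfold n1 at a2
      linarith [le_abs_self (v 0 : ℝ), abs_nonneg (v 1 : ℝ), abs_nonneg (v 2 : ℝ)]
    exact_mod_cast a4

/-- the hypotheses can be met: a two-point law for every admissible choice -/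
theorem direction_side (q : ℝ≥0∞) (hq : 63 / 64 < q) (η : ℝ≥0) (η0 : 0 < η) :
    ∃ (F : Measure ℝ≥0) (_ : IsProbabilityMeasure F), F (Set.Icc 1 (1 * (1 + η))) = 1 ∧
      63 / 64 ≤ F {1} ∧ F {1} < q := by
  have e : (63 / 64 : ℝ≥0∞) + 1 / 64 = 1 := by
    rw [ENNReal.div_add_div_same, show (63 + 1 : ℝ≥0∞) = 64 by norm_num,
      ENNReal.div_self (by norm_num) (by norm_num)]
  have h1 : ((63 / 64 : ℝ≥0∞) • Measure.dirac (1 : ℝ≥0) +
      (1 / 64 : ℝ≥0∞) • Measure.dirac (1 + η)) {1} = 63 / 64 := by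
    simp [Set.indicator, η0.ne']
  refine ⟨(63 / 64 : ℝ≥0∞) • Measure.dirac 1 + (1 / 64 : ℝ≥0∞) • Measure.dirac (1 + η),
    ⟨by simpa using e⟩, by simpa [Measure.dirac_apply, Set.indicator] using e, h1.ge, h1.trans_lt hq⟩

end Pool.Agent.Lib.V3K
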