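import Pool.Agent.Lib.V3K.Main
import Pool.Agent.Lib.V3K.Emb
import Pool.Agent.Lib.V3.B_GEO
import Pool.Agent.Lib.V3.B_SUM
import Pool.Agent.Lib.V3.B_WIN
import Pool.Agent.Lib.V3.B_MART
import Pool.Agent.Lib.V3.B_OUT
import Pool.Agent.Lib.V3.Fast47
import Pool.Agent.Lib.V3.Sep47
import Pool.Agent.Lib.V3Q.B_KES
import Pool.Agent.Lib.V3Q.B_HALVE
import Pool.Agent.Lib.V3Q.B_START2

/-! Back to the definitions of the hand-in. -/

namespace Pool.Agent.Lib.V3K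

open MeasureTheory ProbabilityTheory Filter Topology Pool.Agent.Lib.V3
open Pool.Agent.Lib.MP_eba68f_pr (lattice passage FF FF_prob wN bern qq)
open scoped NNReal ENNReal

theorem kit : Kit :=
  ⟨bGEO, bSUM, bWIN, bMART, bFAST47, fun z K h0 hK n S hn hS => SEP47.sep z K h0 hK n S hn hS,
    bSTART2 (bHALVE bKES) bCHAIN2, bCHAIN2⟩

/-- the rate for the passage time of the hand-in -/
theorem rate_out {p : Par} {κ : ℝ} {n₀ : ℕ} (κ0 : 0 < κ) (κ1 : κ ≤ 1) (hH : Heavy p κ n₀)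
    (hρ : 4 * (p.b - p.r) ≤ p.r) (hlo : 16 * (p.lo - p.r) ≤ (p.hi - p.r) * κ)
    (hF : p.F {t | p.r ≤ (t : ℝ) ∧ (t : ℝ) ≤ p.b} = 1) :
    ∃ c : ℝ, 0 < c ∧ ∀ᶠ N : ℕ in atTop, ∃ v : V, Cone p v ∧ n1 v ≤ N ∧
      ENNReal.ofReal (c * √(Real.log N)) ≤ evariance (fun τ => passage τ 0 v)
        (Measure.infinitePi fun _ : (lattice 3).edgeSet => p.F) := by
  obtain ⟨c, c0, h⟩ := rateK kit κ0 κ1 hH hρ hlo
  refine ⟨c, c0, h.mono fun N ⟨v, h1, h2, h3⟩ => ⟨v, h1, h2, ?_⟩⟩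
  rw [(OUT.ident p hF v).evariance_eq, ← ofReal_variance ((p.T_nice 0 v).memLp p.P 2)]
  exact ENNReal.ofReal_le_ofReal h3

open Classical in
lemma FF_apply {s : Set ℝ≥0} (hs : MeasurableSet s) :
    FF s = (if 1 + 1 / 100000 ∈ s then 1 / 64 else 0) + (if 1 ∈ s then 63 / 64 else 0) := by
  have e1 : ENNReal.ofReal qq = 1 / 64 := by
    rw [qq, ENNReal.ofReal_div_of_pos (by norm_num)]; simp
  have e2 : ENNReal.ofReal (1 - qq) = 63 / 64 := by
    rw [qq, show (1 - 1 / 64 : ℝ) = 63 / 64 by norm_num, ENNReal.ofReal_div_of_pos (by norm_num)]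
    simp
  rw [FF, Measure.map_apply Measurable.of_discrete hs, bern, e1, e2]
  simp [Set.indicator, wN]

lemma ne_one : (1 + 1 / 100000 : ℝ≥0) ≠ 1 := by norm_num

lemma FF_one : FF {1} = 63 / 64 := by
  rw [FF_apply (measurableSet_singleton _), if_neg (by exact ne_one), if_pos (by rfl), zero_add]

lemma FF_top : FF {1 + 1 / 100000} = 1 / 64 := by
  rw [FF_apply (measurableSet_singleton _), if_pos (by rfl), if_neg (by exact ne_one.symm),
    add_zero]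

lemma FF_Iic {a : ℝ≥0} (h1 : 1 ≤ a) (h2 : a < 1 + 1 / 100000) :
    FF.real (Set.Iic a) = 63 / 64 := by
  rw [Measure.real, FF_apply measurableSet_Iic, if_neg (by exact not_le.2 h2),
    if_pos (by exact h1), zero_add]
  simp

/-- the two-valued law as a set of parameters -/
noncomputable def pF : Par where
  F := FF
  prob := FF_prob
  r := 1
  b := 1 + 1 / 100000
  lo := 1
  hi := 1 + 1 / 200000
  σ := 1
  r_pos := one_pos
  r_le_lo := by simp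
  lo_lt := by push_cast; norm_num
  hi_le := by push_cast; norm_num
  q_pos := by rw [FF_Iic le_rfl (by norm_num)]; norm_num
  one_le := le_rfl

lemma pF_heavy : ∃ n₀, 24 ≤ n₀ ∧ Heavy pF (1 / 100000) n₀ := by
  refine heavy_of pF (t := 2 ^ 14) (by norm_num) (by norm_num) (by norm_num [pF]) ?_
  have h1 : pF.F.real (Set.Iic pF.hi) = 63 / 64 :=
    FF_Iic (a := 1 + 1 / 200000) le_self_add (by rw [← NNReal.coe_lt_coe]; push_cast; norm_num)
  have h2 : (pF.b - pF.r) / pF.r = 1 / 100000 := by norm_num [pF]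
  rw [h1, h2, Real.log_pow]
  have := Real.log_two_lt_d9
  push_cast
  linarith

theorem axis_var : ∃ c : ℝ, 0 < c ∧ ∀ᶠ N : ℕ in atTop, ∃ v : Fin 3 → ℤ,
    3000 * (|v 1| + |v 2|) ≤ v 0 ∧ v 0 ≤ N ∧
      ENNReal.ofReal (c * √(Real.log N)) ≤ evariance (fun τ => passage τ 0 v)
        (Measure.infinitePi fun _ : (lattice 3).edgeSet => FF) := by
  obtain ⟨n₀, -, hH⟩ := pF_heavy
  obtain ⟨c, c0, h⟩ := rate_out (by norm_num) (by norm_num) hH (by norm_num [pF])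
    (by norm_num [pF]) (by
      have ms : MeasurableSet {t : ℝ≥0 | pF.r ≤ (t : ℝ) ∧ (t : ℝ) ≤ pF.b} :=
        measurable_coe_nnreal_real (measurableSet_Icc (a := pF.r) (b := pF.b))
      show FF _ = 1
      have m1 : (1 + 1 / 100000 : ℝ≥0) ∈ {t : ℝ≥0 | pF.r ≤ (t : ℝ) ∧ (t : ℝ) ≤ pF.b} := by
        show (1 : ℝ) ≤ ((1 + 1 / 100000 : ℝ≥0) : ℝ) ∧
          ((1 + 1 / 100000 : ℝ≥0) : ℝ) ≤ 1 + 1 / 100000
        push_cast
        norm_num
      have m2 : (1 : ℝ≥0) ∈ {t : ℝ≥0 | pF.r ≤ (t : ℝ) ∧ (t : ℝ) ≤ pF.b} := by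
        show (1 : ℝ) ≤ ((1 : ℝ≥0) : ℝ) ∧ ((1 : ℝ≥0) : ℝ) ≤ 1 + 1 / 100000
        push_cast
        norm_num
      rw [FF_apply ms, if_pos m1, if_pos m2,
        ENNReal.div_add_div_same, show (1 + 63 : ℝ≥0∞) = 64 by norm_num,
        ENNReal.div_self (by norm_num) (by norm_num)])
  refine ⟨c, c0, h.mono fun N ⟨v, h1, h2, h3⟩ => ⟨v, ?_, ?_, h3⟩⟩
  · have a1 : 1 * perp v ≤ 30 * (1 + 1 / 100000 - 1) * (v 0 : ℝ) := h1
    have a2 := perp_nonneg v
    have a3 : 3000 * (|(v 1 : ℝ)| + |(v 2 : ℝ)|) ≤ v 0 := by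
      unfold perp at a1 a2
      linarith
    exact_mod_cast a3
  · have a3 : (v 0 : ℝ) ≤ N := by
      unfold n1 at h2
      linarith [le_abs_self (v 0 : ℝ), abs_nonneg (v 1 : ℝ), abs_nonneg (v 2 : ℝ)]
    exact_mod_cast a3

end Pool.Agent.Lib.V3K
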