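import Pool.Agent.Lib.V3K.Core
import Pool.Agent.Lib.V3K.Half
import Pool.Agent.Lib.V3K.Low
import Pool.Agent.Lib.V3Q.B_STEP2

/-! Half-space bound, lower tail and change of scale with constants free of the variance bound. -/

namespace Pool.Agent.Lib.V3K

open Pool.Agent.Lib.V3

def LowBK (p : Par) (κ : ℝ) (d : Dat) (a : ℝ) (N : ℕ) : Prop :=
  ∀ (n : ℕ) (k : ℝ) (S : Finset V) (j : ℤ), 1 ≤ n → n ≤ N → 0 ≤ k → k ≤ n →
    (∀ v ∈ S, (n : ℤ) ≤ 2 * v 0 ∧ v 0 ≤ 2 * n ∧ p.g d v ≤ k) → p.cS * n ^ 2 ≤ S.card →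
    0 ≤ j → j ≤ 3 * n → p.pr (p.Low d n j (a * (k + p.σ ^ 4))) ≤ κ / 100

lemma LowBK.low2 {p : Par} {κ a : ℝ} {d : Dat} {N M : ℕ} (h : LowBK p κ d a N) (κ1 : κ ≤ 1)
    (hM : M ≤ N) : p.LowB2 d a M := fun n k S j h1 h2 h3 h4 h5 h6 h7 h8 =>
  (h n k S j h1 (h2.trans hM) h3 h4 h5 h6 h7 h8).trans (by linarith)

lemma good_sig {p : Par} {d : Dat} (hG : p.Good d) (σ : ℝ) (h : 1 ≤ σ) : (p.sig σ h).Good d :=
  ⟨hG.1, hG.2, hG.3, hG.4, hG.5, hG.6, hG.7, hG.8, hG.9, hG.10, hG.11⟩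

theorem halfK {p : Par} {d : Dat} (g : p.Good d) {κ Y : ℝ} (κ0 : 0 ≤ κ) (κ1 : κ ≤ 1)
    (hV : VarK p κ (3 * (p.b / p.r) * Y)) : p.Half2 d (HK.C1 p) Y := fun v hv hY =>
  HK.core2 p g v hv p.one_le fun z hc hz => (hV z hc (hz.trans
    (mul_le_mul_of_nonneg_left hY (by linarith [p.one_le_ratio])))).trans (sq_le_σ p κ0 κ1)

theorem lowK2 (hS : St_SUM) {p : Par} {d : Dat} (g : p.Good d) {κ a₁ L : ℝ} {N : ℕ} (κ0 : 0 ≤ κ)
    (κ1 : κ ≤ 1) (hρ : 4 * (p.b - p.r) ≤ p.r) (a0 : 0 ≤ a₁) (L1 : 1 ≤ L)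
    (L2 : 368640000 ≤ d.ε * p.c1 ^ 2 * L) (hV : VarK p κ (54 * N))
    (hH : p.Half2 d a₁ ((2 + 2 / p.r * (2 * p.b + 1)) * N)) :
    LowBK p κ d (a₁ + 1 + p.R ^ 2 + p.b + L) N := by
  intro n k S j hn hN hk hkn hSv hcard hj hj3
  have hr := p.r_pos
  have hb := p.b_pos
  have hε := g.ε_pos
  have hσ := p.σ_pos
  have hc := p.c1_pos
  have s1 : 1 ≤ p.σ ^ 4 := one_le_pow₀ p.one_le
  have s2 : p.σ ≤ p.σ ^ 4 := le_self_pow₀ p.one_le (by norm_num)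
  have hn' : (1 : ℝ) ≤ n := by exact_mod_cast hn
  have hN' : (n : ℝ) ≤ N := by exact_mod_cast hN
  have h := LK.lowK' hS g (B := a₁ * (k + p.σ ^ 4)) (L := L * p.σ ^ 4)
    (lam := (a₁ + 1 + p.R ^ 2 + p.b + L) * (k + p.σ ^ 4)) (s := (κ * p.σ) ^ 2) hρ hn hkn
    (one_le_mul_of_one_le_of_one_le L1 s1) (sq_nonneg _)
    (by
      have a1 := mul_le_mul_of_nonneg_left s1 (sq_nonneg p.R)
      have a2 := mul_le_mul_of_nonneg_left s1 hb.le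
      have a3 := mul_nonneg (sq_nonneg p.R) hk
      have a4 := mul_nonneg hb.le hk
      have a5 := mul_nonneg (zero_le_one.trans L1) hk
      linarith)
    hSv hj hj3 (fun z h1 h2 => hV z h1 (h2.trans (by linarith))) fun v hv => by
      obtain ⟨h1, h2, h3⟩ := hSv v hv
      have v0 : 0 ≤ v 0 := by omega
      have h2' : (v 0 : ℝ) ≤ 2 * n := by exact_mod_cast h2
      refine (hH v v0 ?_).trans (p.pr_mono fun τ hτ => ?_)
      · have a1 := g.g_ge v v0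
        have a2 := mul_le_mul_of_nonneg_left h2' hb.le
        have a3 : perp v ≤ 2 / p.r * (2 * p.b + 1) * n := by
          rw [div_mul_eq_mul_div, div_mul_eq_mul_div, le_div_iff₀ hr]
          unfold perp
          linarith
        have a4 := mul_le_mul_of_nonneg_left hN'
          (show 0 ≤ 2 + 2 / p.r * (2 * p.b + 1) by positivity)
        rw [n1_eq v0]
        linarith
      · have a1 : p.TA (Up 0) τ 0 v - d.ρ v ≤ a₁ * (p.g d v + p.σ) := hτ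
        exact a1.trans (mul_le_mul_of_nonneg_left (by linarith) a0)
  have hP := p.pr_nonneg (p.Low d n j ((a₁ + 1 + p.R ^ 2 + p.b + L) * (k + p.σ ^ 4)))
  generalize p.pr (p.Low d n j ((a₁ + 1 + p.R ^ 2 + p.b + L) * (k + p.σ ^ 4))) = P at h hP ⊢
  have L0 : 0 < L := by linarith
  have a1 := mul_le_mul_of_nonneg_right hcard
    (show 0 ≤ P * (d.ε * (L * p.σ ^ 4)) by positivity)
  have e : p.cS * n ^ 2 * (P * (d.ε * (L * p.σ ^ 4))) =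
      d.ε * p.c1 ^ 2 * L * (P * (p.σ ^ 2 * n ^ 2)) / 400 := by
    unfold Par.cS
    field_simp
  have a2 := mul_le_mul_of_nonneg_right L2 (show 0 ≤ P * (p.σ ^ 2 * n ^ 2) by positivity)
  have a3 : κ ^ 2 ≤ κ := pow_le_of_le_one κ0 κ1 two_ne_zero
  have a4 := mul_le_mul_of_nonneg_right a3 (show 0 ≤ p.σ ^ 2 * n ^ 2 by positivity)
  refine le_of_mul_le_mul_right ?_ (show 0 < p.σ ^ 2 * n ^ 2 by positivity)
  rw [e] at a1
  nlinarith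

namespace SK

open STEP2 (gain win)

theorem core (hW : St_WIN) (hM : St_MART) (p : Par) (d : Dat) (κ m C A a c : ℝ) (n₀ N : ℕ)
    (hG : p.Good d) (κ0 : 0 < κ) (κ1 : κ ≤ 1) (hH : Heavy p κ n₀) (hρ : 4 * (p.b - p.r) ≤ p.r)
    (m0 : 0 < m) (m1 : m ≤ 1) (m2 : m ≤ p.b - p.r) (C0 : 0 ≤ C) (hc : c = 10 + p.b) (A1 : 1 ≤ A)
    (A2 : 36 * (1 + c + 4 * C) ≤ d.ε * A) (a0 : 0 ≤ a) (a1 : p.c1 * a = 300 * A)
    (hV : VarK p κ (9 * N)) (hL : LowBK p κ d C N) (n : ℕ) (β : ℝ)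
    (hn : (2 * (c + C) + 24) * p.σ ^ 4 ≤ m * n) (hn₀ : n₀ ≤ n) (hN : n ≤ N) (β0 : 0 ≤ β)
    (β1 : β * (2 + 4 * C) ≤ m) (hP : p.PP d n β) :
    ∃ n' : ℕ, n ≤ 3 * n' ∧ 3 * n' ≤ 2 * n ∧ p.PP d n' (β + (c + 2 * a + 2) * p.σ ^ 2 / √n) := by
  have s1 := p.one_le
  have b0 := p.b_pos
  have r0' := p.r_pos
  have e0 := hG.ε_pos
  have cp : 0 ≤ c := by rw [hc]; positivity
  have R0 : 0 ≤ p.R := by unfold Par.R; positivity
  obtain ⟨s, hs⟩ : ∃ s, s = p.σ ^ 2 := ⟨_, rfl⟩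
  have s4 : p.σ ^ 4 = s ^ 2 := by rw [hs]; ring
  have s2 : 1 ≤ s := hs ▸ one_le_pow₀ s1
  have s3 : 1 ≤ s ^ 2 := one_le_pow₀ s2
  have s5 : p.σ ≤ s ^ 2 := s4 ▸ le_self_pow₀ s1 (by norm_num)
  have hK : 10 * p.σ + p.b ≤ c * s ^ 2 := by
    have := mul_le_mul_of_nonneg_left s3 b0.le
    rw [hc]
    linarith
  rw [s4] at hn
  rw [← hs]
  obtain ⟨⟨x, x0, hx⟩, S, hS, cS⟩ := hP
  have q0 : 0 ≤ (c + C) * s ^ 2 := by positivity
  have mn : m * n ≤ n := mul_le_of_le_one_left (Nat.cast_nonneg n) m1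
  have mn2 : m * n ≤ (p.b - p.r) * n := mul_le_mul_of_nonneg_right m2 (Nat.cast_nonneg n)
  have n24 : (24 : ℝ) ≤ n := by linarith
  have n24' : 24 ≤ n := by exact_mod_cast n24
  obtain ⟨r, hr⟩ : ∃ r, r = √(n : ℝ) := ⟨_, rfl⟩
  have r0 : 0 < r := hr ▸ Real.sqrt_pos.2 (by linarith)
  have r2 : r ^ 2 = n := hr ▸ Real.sq_sqrt (by linarith)
  have β2 : β ≤ 1 := by linarith [mul_nonneg β0 C0]
  have β3 : β ^ 2 * (2 + 4 * C) ≤ m :=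
    (mul_le_mul_of_nonneg_right (pow_le_of_le_one β0 β2 two_ne_zero) (by positivity)).trans β1
  have u2 : (β * r) ^ 2 = β ^ 2 * n := by rw [mul_pow, r2]
  have u3 : (β * r) ^ 2 * (2 + 4 * C) ≤ m * n := by
    have := mul_le_mul_of_nonneg_right β3 (Nat.cast_nonneg n : (0 : ℝ) ≤ n)
    rw [u2]
    linarith
  have u4 : 0 ≤ (β * r) ^ 2 * C := by positivity
  have u8 : (9 : ℝ) * n ≤ 9 * N := mul_le_mul_of_nonneg_left (by exact_mod_cast hN) (by norm_num)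
  rw [← u2] at hx
  obtain ⟨W, hW, cW⟩ := coreK hW hM hG κ0 κ1 hH hρ n x (C * (2 * (β * r) ^ 2 + s ^ 2))
    ((A * (β * r + s)) ^ 2) (a * s * (β * r + s)) (hV.mono u8) n24' hn₀ x0 (by positivity)
    (by linarith) (by linarith)
    (fun j hj => s4 ▸ hL n _ S j (by omega) hN (by positivity) (by linarith)
      (fun v hv => ⟨(hS v hv).1, (hS v hv).2.1, (hS v hv).2.2.trans (by
        have h : (v 0 : ℝ) ≤ 2 * n := by exact_mod_cast (hS v hv).2.1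
        have := mul_le_mul_of_nonneg_left h (sq_nonneg β)
        linarith)⟩) cS (by omega) (by omega))
    (one_le_pow₀ (one_le_mul_of_one_le_of_one_le A1 (by linarith [mul_nonneg β0 r0.le])))
    (by linarith [win cp C0 (by positivity : 0 ≤ β * r) e0 A1 A2 hx (by linarith : 0 ≤ s) hK])
    (by
      rw [Real.sqrt_sq (by positivity), ← hs, ← mul_assoc p.c1, ← mul_assoc p.c1, a1]
      exact le_of_eq (by ring))
  have key : ∀ v ∈ W, p.g d v ≤ (β + (c + 2 * a + 2) * s / √(n : ℝ)) ^ 2 * v 0 := fun v hv => by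
    obtain ⟨w1, -, w3⟩ := hW v hv
    have v0 : (0 : ℝ) ≤ v 0 := by exact_mod_cast (by omega : 0 ≤ v 0)
    have g := gain β0 β2 (by positivity : 0 ≤ (c + 2 * a + 2) * s / r) r0.le (by linarith)
      (div_mul_cancel₀ _ r0.ne') a0 cp rfl s2 hK
    rw [r2] at g
    have g2 := mul_le_mul_of_nonneg_left
      (show p.g d x + 10 * p.σ + p.b + 2 * (a * s * (β * r + s)) ≤
        (β + (c + 2 * a + 2) * s / r) ^ 2 * (n - 1) by linarith) v0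
    rw [← hr]
    refine le_of_mul_le_mul_right ?_ (by linarith : (0 : ℝ) < n - 1)
    linarith
  have cp2 : 0 < p.cS * (n : ℝ) ^ 2 := mul_pos p.cS_pos (by positivity)
  obtain ⟨y, hy⟩ : W.Nonempty := Finset.card_pos.1 (by exact_mod_cast cp2.trans_le cW)
  obtain ⟨y1, y2, -⟩ := hW y hy
  obtain ⟨m, hm⟩ : ∃ m : ℕ, y 0 = m := ⟨(y 0).toNat, by omega⟩
  refine ⟨m, by omega, by omega, ⟨y, hm, ?_⟩, W, fun v hv => ⟨?_, ?_, key v hv⟩, ?_⟩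
  · have := key y hy
    rwa [hm, Int.cast_natCast] at this
  · obtain ⟨w1, w2, -⟩ := hW v hv
    omega
  · obtain ⟨w1, w2, -⟩ := hW v hv
    omega
  · have h : (m : ℝ) ≤ n := by exact_mod_cast (by omega : m ≤ n)
    exact (mul_le_mul_of_nonneg_left (pow_le_pow_left₀ (Nat.cast_nonneg m) h 2)
      p.cS_pos.le).trans cW

end SK

theorem stepK (hW : St_WIN) (hM : St_MART) {p : Par} {d : Dat} (hG : p.Good d) {κ C : ℝ} {n₀ : ℕ}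
    (κ0 : 0 < κ) (κ1 : κ ≤ 1) (hH : Heavy p κ n₀) (hρ : 4 * (p.b - p.r) ≤ p.r) (C0 : 0 ≤ C) :
    ∃ B β₀ c : ℝ, 0 ≤ B ∧ 0 < β₀ ∧ 0 ≤ c ∧ ∀ (σ : ℝ) (h : 1 ≤ σ) (N : ℕ),
      VarK (p.sig σ h) κ (9 * N) → LowBK (p.sig σ h) κ d C N →
      ∀ (n : ℕ) (β : ℝ), c * σ ^ 4 ≤ n → n ≤ N → 0 ≤ β → β ≤ β₀ → (p.sig σ h).PP d n β →
        ∃ n' : ℕ, n ≤ 3 * n' ∧ 3 * n' ≤ 2 * n ∧ (p.sig σ h).PP d n' (β + B * σ ^ 2 / √n) := by
  have b0 := p.b_pos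
  have r0 := p.r_pos
  have e0 := hG.ε_pos
  have c0 := p.c1_pos
  obtain ⟨c, hc⟩ : ∃ c, c = 10 + p.b := ⟨_, rfl⟩
  have cp : 0 ≤ c := by rw [hc]; positivity
  obtain ⟨A, A1, A2⟩ : ∃ A : ℝ, 1 ≤ A ∧ 36 * (1 + c + 4 * C) ≤ d.ε * A := by
    refine ⟨1 + 36 * (1 + c + 4 * C) / d.ε, le_add_of_nonneg_right (by positivity), ?_⟩
    rw [mul_add d.ε, mul_div_cancel₀ _ e0.ne']
    linarith
  obtain ⟨a, a0, a1⟩ : ∃ a : ℝ, 0 ≤ a ∧ p.c1 * a = 300 * A :=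
    ⟨300 * A / p.c1, by positivity, mul_div_cancel₀ _ c0.ne'⟩
  obtain ⟨m, m0, m1, m2⟩ : ∃ m : ℝ, 0 < m ∧ m ≤ 1 ∧ m ≤ p.b - p.r :=
    ⟨min 1 (p.b - p.r), lt_min one_pos (gap_pos p), min_le_left _ _, min_le_right _ _⟩
  refine ⟨c + 2 * a + 2, m / (2 + 4 * C), (2 * (c + C) + 24) / m + n₀, by positivity,
    by positivity, by positivity, fun σ h N hV hL n β hn hN β0 β1 hP => ?_⟩
  have s1 : 1 ≤ σ ^ 4 := one_le_pow₀ h
  have q1 : 0 ≤ (2 * (c + C) + 24) / m * σ ^ 4 := by positivity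
  have q2 : (n₀ : ℝ) ≤ n₀ * σ ^ 4 := le_mul_of_one_le_right (Nat.cast_nonneg _) s1
  have q3 : (0 : ℝ) ≤ n₀ := Nat.cast_nonneg _
  rw [add_mul] at hn
  refine SK.core hW hM (p.sig σ h) d κ m C A a c n₀ N (good_sig hG σ h) κ0 κ1 hH hρ m0 m1 m2 C0 hc
    A1 A2 a0 a1 hV hL n β ?_ (by exact_mod_cast (show (n₀ : ℝ) ≤ n by linarith)) hN β0
    ((le_div_iff₀ (by positivity)).1 β1) hP
  have q4 : (2 * (c + C) + 24) / m * σ ^ 4 ≤ n := by linarith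
  rw [div_mul_eq_mul_div, div_le_iff₀' m0] at q4
  exact q4

end Pool.Agent.Lib.V3K
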