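import Pool.Agent.Lib.V3K.Near
import Pool.Agent.Lib.V3Q.All

/-! The threshold for the atom is positive and tends to one for nearly constant weights. -/

namespace Pool.Agent.Lib.V3K

open MeasureTheory ProbabilityTheory Filter Pool.Agent.Lib.V3
open Pool.Agent.Lib.MP_eba68f_pr (lattice passage)
open scoped NNReal ENNReal

theorem threshold : ∃ p₀ : ℝ≥0 → ℝ≥0 → ℝ≥0∞, (∀ r b, 0 < r → 0 < p₀ r b) ∧
    (∀ q < 1, ∃ η : ℝ≥0, 0 < η ∧ ∀ r b, 0 < r → b ≤ r * (1 + η) → q ≤ p₀ r b) ∧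
    ∀ r b : ℝ≥0, 0 < r → ∀ (F : Measure ℝ≥0) [IsProbabilityMeasure F],
      F (Set.Icc r b) = 1 → (∀ a, r < a → 0 < F (Set.Iic a)) → F {r} < p₀ r b →
      ∃ c : ℝ, 0 < c ∧ ∀ᶠ N : ℕ in atTop, ∃ v : Fin 3 → ℤ, (∀ i, |v i| ≤ N) ∧
        ENNReal.ofReal (c * √(Real.log N)) ≤ evariance (fun τ => passage τ 0 v)
          (Measure.infinitePi fun _ : (lattice 3).edgeSet => F) := by
  refine ⟨fun r b => sSup {q | ∀ (F : Measure ℝ≥0) [IsProbabilityMeasure F],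
      F (Set.Icc r b) = 1 → (∀ a, r < a → 0 < F (Set.Iic a)) → F {r} < q →
      ∃ c : ℝ, 0 < c ∧ ∀ᶠ N : ℕ in atTop, ∃ v : Fin 3 → ℤ, (∀ i, |v i| ≤ N) ∧
        ENNReal.ofReal (c * √(Real.log N)) ≤ evariance (fun τ => passage τ 0 v)
          (Measure.infinitePi fun _ : (lattice 3).edgeSet => F)},
    fun r b hr => ?_, fun q hq => ?_, fun r b _ F _ hF ha hs => ?_⟩
  · obtain ⟨p, hp, H⟩ := st_FIN2 r b hr
    exact hp.trans_le (le_sSup H)
  · obtain ⟨η, η0, H⟩ := near_rate q hq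
    refine ⟨η, η0, fun r b hr hb => le_sSup fun F _ hF ha hs => ?_⟩
    obtain ⟨c, c0, h⟩ := H r b hr hb F hF ha hs
    refine ⟨c, c0, h.mono fun N ⟨v, _, a2, a3⟩ => ⟨v, fun i => ?_, a3⟩⟩
    have a4 : |(v i : ℝ)| ≤ N := by
      unfold n1 at a2
      have := abs_nonneg (v 0 : ℝ)
      have := abs_nonneg (v 1 : ℝ)
      have := abs_nonneg (v 2 : ℝ)
      fin_cases i <;> simp only [Fin.zero_eta, Fin.mk_one, Fin.reduceFinMk] <;> linarith
    exact_mod_cast a4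
  · obtain ⟨q, H, hq⟩ := lt_sSup_iff.1 hs
    exact H F hF ha hq

end Pool.Agent.Lib.V3K
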